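import Mathlib
import Pool.Agent.W507.SmoothDefs
import Pool.Agent.W507.Geo
import Pool.Agent.W507.Gen

/-!
# Projections of scrolls from points outside the secant variety
-/

set_option autoImplicit false

namespace Pool.Agent.W507.DelPezzo

open MvPolynomial
open scoped LinearAlgebra.Projectivization

variable {k : Type*} [Field k]

/-- a minor of the catalecticant matrix -/
def cat {R : Type*} [CommRing R] (x0 x1 x2 y0 y1 y2 y3 : R) : R :=
  x0 * (y1 * y3 - y2 * y2) - x1 * (y0 * y3 - y1 * y2) + x2 * (y0 * y2 - y1 * y1)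

/-- it vanishes on matrices of rank two -/
lemma cat_rank2 {x0 x1 x2 y0 y1 y2 y3 p0 p1 p2 q0 q1 q2 p0' p1' p2' q0' q1' q2' : k}
    (h0 : x0 = p0 * q0 + p0' * q0') (h1 : x1 = p1 * q0 + p1' * q0')
    (h2 : x2 = p2 * q0 + p2' * q0') (h3 : y0 = p0 * q1 + p0' * q1')
    (h4 : y1 = p1 * q1 + p1' * q1') (h5 : y2 = p2 * q1 + p2' * q1')
    (h4' : y1 = p0 * q2 + p0' * q2') (h5' : y2 = p1 * q2 + p1' * q2')
    (h6 : y3 = p2 * q2 + p2' * q2') : cat x0 x1 x2 y0 y1 y2 y3 = 0 := by
  have e : cat x0 x1 x2 y0 y1 y2 y3 =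
      (Matrix.of ![![x0, y0, y1], ![x1, y1, y2], ![x2, y2, y3]] : Matrix (Fin 3) (Fin 3) k).det := by
    rw [Matrix.det_fin_three]
    simp [cat]
    ring
  have e2 : (Matrix.of ![![x0, y0, y1], ![x1, y1, y2], ![x2, y2, y3]] :
      Matrix (Fin 3) (Fin 3) k) = Matrix.of ![
      ![p0 * q0 + p0' * q0', p0 * q1 + p0' * q1', p0 * q2 + p0' * q2'],
      ![p1 * q0 + p1' * q0', p1 * q1 + p1' * q1', p1 * q2 + p1' * q2'],
      ![p2 * q0 + p2' * q0', p2 * q1 + p2' * q1', p2 * q2 + p2' * q2']] := by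
    rw [← h0, ← h1, ← h2, ← h3, ← h4, ← h5, ← h4', ← h5', ← h6]
  rw [e, e2, Matrix.det_fin_three]
  simp
  ring

section binary

/-- recovering the point of the line -/
lemma line_same {n : ℕ} (hn : 1 ≤ n) {u c t0 t1 s0 s1 : k} (hu : u ≠ 0)
    (ht : t0 ≠ 0 ∨ t1 ≠ 0) (hs : s0 ≠ 0 ∨ s1 ≠ 0)
    (h : ∀ i ≤ n, u * (t0 ^ (n - i) * t1 ^ i) = c * (s0 ^ (n - i) * s1 ^ i)) :
    ∃ ρ : k, ρ ≠ 0 ∧ t0 = ρ * s0 ∧ t1 = ρ * s1 := by
  obtain ⟨m, rfl⟩ : ∃ m, n = m + 1 := ⟨n - 1, by omega⟩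
  have e0 := h 0 (by omega)
  have e1 := h 1 (by omega)
  have en := h (m + 1) le_rfl
  have en1 := h m (by omega)
  have r1 : m + 1 - 0 = m + 1 := rfl
  have r2 : m + 1 - 1 = m := rfl
  have r3 : m + 1 - (m + 1) = 0 := Nat.sub_self _
  have r4 : m + 1 - m = 1 := by omega
  simp only [r1, r2, r3, r4, pow_zero, pow_one, mul_one, one_mul] at e0 e1 en en1
  by_cases h0 : t0 = 0
  · have h1 : t1 ≠ 0 := by
      rcases ht with h | h
      · exact absurd h0 h
      · exact h
    have h2 : c * s1 ^ (m + 1) ≠ 0 := by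
      rw [← en]
      exact mul_ne_zero hu (pow_ne_zero _ h1)
    have hs1 : s1 ≠ 0 := by
      rintro rfl
      simp at h2
    have hc : c ≠ 0 := left_ne_zero_of_mul h2
    have hs0 : s0 = 0 := by
      rw [h0, zero_mul, mul_zero] at en1
      have := (mul_eq_zero.1 en1.symm).resolve_left hc
      exact (mul_eq_zero.1 this).resolve_right (pow_ne_zero _ hs1)
    refine ⟨t1 / s1, div_ne_zero h1 hs1, ?_, ?_⟩
    · rw [h0, hs0, mul_zero]
    · field_simp
  · have h2 : c * s0 ^ (m + 1) ≠ 0 := by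
      rw [← e0]
      exact mul_ne_zero hu (pow_ne_zero _ h0)
    have hs0 : s0 ≠ 0 := by
      rintro rfl
      simp at h2
    have hc : c ≠ 0 := left_ne_zero_of_mul h2
    refine ⟨t0 / s0, div_ne_zero h0 hs0, ?_, ?_⟩
    · field_simp
    · have h3 : u * t0 ^ m * (t1 * s0 - t0 * s1) = 0 := by
        have : u * t0 ^ m * (t1 * s0 - t0 * s1) =
            s0 * (u * (t0 ^ m * t1)) - s1 * (u * t0 ^ (m + 1)) := by ring
        rw [this, e1, e0]
        ring
      have h4 := (mul_eq_zero.1 h3).resolve_left (mul_ne_zero hu (pow_ne_zero _ h0))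
      field_simp
      linear_combination h4

lemma line_coef {n : ℕ} {u c ρ s0 s1 : k} (hs : s0 ≠ 0 ∨ s1 ≠ 0)
    (h : ∀ i ≤ n, u * ((ρ * s0) ^ (n - i) * (ρ * s1) ^ i) = c * (s0 ^ (n - i) * s1 ^ i)) :
    ρ ^ n * u = c := by
  rcases hs with hs | hs
  · have := h 0 (by omega)
    rw [Nat.sub_zero, pow_zero, pow_zero, mul_one, mul_one, mul_pow] at this
    have h2 := pow_ne_zero n hs
    apply mul_right_cancel₀ h2
    linear_combination this
  · have := h n le_rfl
    rw [Nat.sub_self, pow_zero, pow_zero, one_mul, one_mul, mul_pow] at this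
    have h2 := pow_ne_zero n hs
    apply mul_right_cancel₀ h2
    linear_combination this

/-- derivative of a monomial of degree `n` in two variables -/
def dmon (n i : ℕ) (t0 t1 w0 w1 : k) : k :=
  ((n - i : ℕ) : k) * t0 ^ (n - i - 1) * t1 ^ i * w0 + (i : k) * t0 ^ (n - i) * t1 ^ (i - 1) * w1

lemma line_tan {n : ℕ} (hn : 1 ≤ n) {u wu c t0 t1 w0 w1 : k} (hu : u ≠ 0)
    (ht : t0 ≠ 0 ∨ t1 ≠ 0)
    (h : ∀ i ≤ n, wu * (t0 ^ (n - i) * t1 ^ i) + u * dmon n i t0 t1 w0 w1 =
      c * (u * (t0 ^ (n - i) * t1 ^ i))) :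
    ∃ ρ : k, w0 = ρ * t0 ∧ w1 = ρ * t1 := by
  obtain ⟨m, rfl⟩ : ∃ m, n = m + 1 := ⟨n - 1, by omega⟩
  have e0 := h 0 (by omega)
  have e1 := h 1 (by omega)
  have en := h (m + 1) le_rfl
  have en1 := h m (by omega)
  have r1 : m + 1 - 0 = m + 1 := rfl
  have r2 : m + 1 - 1 = m := rfl
  have r3 : m + 1 - (m + 1) = 0 := Nat.sub_self _
  have r4 : m + 1 - m = 1 := by omega
  simp only [dmon, r1, r2, r3, r4, pow_zero, pow_one, mul_one, one_mul, Nat.cast_zero, zero_mul,
    add_zero, Nat.sub_self, Nat.cast_one, zero_add] at e0 e1 en en1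
  by_cases h0 : t0 = 0
  · have h1 : t1 ≠ 0 := by
      rcases ht with h | h
      · exact absurd h0 h
      · exact h
    have hw0 : w0 = 0 := by
      rw [h0] at en1
      have : u * t1 ^ m * w0 = 0 := by linear_combination en1
      exact (mul_eq_zero.1 this).resolve_left (mul_ne_zero hu (pow_ne_zero _ h1))
    refine ⟨w1 / t1, ?_, ?_⟩
    · rw [hw0, h0, mul_zero]
    · field_simp
  · refine ⟨w0 / t0, ?_, ?_⟩
    · field_simp
    · rcases Nat.eq_zero_or_pos m with hm | hm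
      · subst hm
        simp only [pow_zero, Nat.cast_zero, zero_mul, one_mul, mul_one, zero_add,
          Nat.cast_one, pow_one] at e0 e1
        have h3 : u * (w1 * t0 - w0 * t1) = 0 := by linear_combination t0 * e1 - t1 * e0
        have h4 := (mul_eq_zero.1 h3).resolve_left hu
        field_simp
        linear_combination h4
      · obtain ⟨l, rfl⟩ : ∃ l, m = l + 1 := ⟨m - 1, by omega⟩
        have r5 : l + 1 - 1 = l := rfl
        rw [r5] at e1
        have h3 : u * t0 ^ (l + 1) * (w1 * t0 - w0 * t1) = 0 := by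
          push_cast at e0 e1
          linear_combination t0 * e1 - t1 * e0
        have h4 := (mul_eq_zero.1 h3).resolve_left (mul_ne_zero hu (pow_ne_zero _ h0))
        field_simp
        linear_combination h4

lemma line_tcoef {n : ℕ} {u wu c ρ t0 t1 : k} (ht : t0 ≠ 0 ∨ t1 ≠ 0)
    (h : ∀ i ≤ n, wu * (t0 ^ (n - i) * t1 ^ i) + u * dmon n i t0 t1 (ρ * t0) (ρ * t1) =
      c * (u * (t0 ^ (n - i) * t1 ^ i))) : wu = (c - n * ρ) * u := by
  rcases ht with ht | ht
  · have := h 0 (by omega)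
    simp only [dmon, Nat.sub_zero, pow_zero, mul_one, Nat.cast_zero, zero_mul, add_zero] at this
    have h2 := pow_ne_zero n ht
    apply mul_right_cancel₀ h2
    rcases Nat.eq_zero_or_pos n with hn | hn
    · subst hn
      simp at this ⊢
      exact this
    · obtain ⟨m, rfl⟩ : ∃ m, n = m + 1 := ⟨n - 1, by omega⟩
      have r : m + 1 - 1 = m := rfl
      rw [r] at this
      linear_combination this
  · have := h n le_rfl
    simp only [dmon, Nat.sub_self, pow_zero, mul_one, one_mul, Nat.cast_zero, zero_mul,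
      zero_add] at this
    have h2 := pow_ne_zero n ht
    apply mul_right_cancel₀ h2
    rcases Nat.eq_zero_or_pos n with hn | hn
    · subst hn
      simp at this ⊢
      exact this
    · obtain ⟨m, rfl⟩ : ∃ m, n = m + 1 := ⟨n - 1, by omega⟩
      have r : m + 1 - 1 = m := rfl
      rw [r] at this
      linear_combination this

end binary

end Pool.Agent.W507.DelPezzo
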