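import Mathlib

/-!
# The linear systems that control interpolation for projected scrolls

Sections of the hyperplane bundle of the scroll of type `(a, b)` are pairs of polynomials of
degrees at most `a` and `b`; the value at the point `(t; α, β)` is `α * P(t) + β * Q(t)`.
-/

set_option autoImplicit false

namespace Pool.Agent.W507.Scroll

open Polynomial

variable {k : Type*} [Field k]

/-- division by `X - τ` -/
noncomputable def Dv (τ : k) : k[X] →ₗ[k] k[X] where
  toFun P := P /ₘ (X - C τ)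
  map_add' := by
    intro P Q
    have h : (X - C τ : k[X]) ≠ 0 := X_sub_C_ne_zero τ
    apply mul_left_cancel₀ h
    have e : ∀ R : k[X], (X - C τ) * (R /ₘ (X - C τ)) = R - C (R.eval τ) := by
      intro R
      have := modByMonic_add_div R (X - C τ)
      rw [modByMonic_X_sub_C_eq_C_eval] at this
      exact eq_sub_of_add_eq' this
    rw [mul_add, e, e, e]
    simp
    ring
  map_smul' := by
    intro r P
    have h : (X - C τ : k[X]) ≠ 0 := X_sub_C_ne_zero τ
    apply mul_left_cancel₀ h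
    have e : ∀ R : k[X], (X - C τ) * (R /ₘ (X - C τ)) = R - C (R.eval τ) := by
      intro R
      have := modByMonic_add_div R (X - C τ)
      rw [modByMonic_X_sub_C_eq_C_eval] at this
      exact eq_sub_of_add_eq' this
    rw [e]
    simp only [RingHom.id_apply]
    rw [mul_smul_comm, e]
    simp [smul_sub, smul_C]

lemma Dv_spec (τ : k) (P : k[X]) : P = C (P.eval τ) + (X - C τ) * Dv τ P := by
  have := modByMonic_add_div P (X - C τ)
  rw [modByMonic_X_sub_C_eq_C_eval] at this
  exact this.symm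

lemma Dv_mem {τ : k} {P : k[X]} {n : ℕ} (h : P ∈ degreeLT k (n + 1)) : Dv τ P ∈ degreeLT k n := by
  by_cases h0 : Dv τ P = 0
  · rw [h0]
    exact Submodule.zero_mem _
  · have h1 : P - C (P.eval τ) ∈ degreeLT k (n + 1) := by
      refine Submodule.sub_mem _ h ?_
      rw [mem_degreeLT]
      exact lt_of_le_of_lt degree_C_le (by exact_mod_cast Nat.succ_pos n)
    have h2 : P - C (P.eval τ) = (X - C τ) * Dv τ P := sub_eq_of_eq_add' (Dv_spec τ P)
    rw [h2, mem_degreeLT, degree_mul, degree_X_sub_C, degree_eq_natDegree h0] at h1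
    rw [mem_degreeLT, degree_eq_natDegree h0]
    have h3 : 1 + (Dv τ P).natDegree < n + 1 := by exact_mod_cast h1
    exact_mod_cast (by omega : (Dv τ P).natDegree < n)

/-- the conditions on a system of sections `F i` -/
structure InK {ι : Type} [Fintype ι] (a b : ℕ) (c : (k[X] × k[X]) →ₗ[k] k) (t α β : ι → k)
    (F : ι → k[X] × k[X]) : Prop where
  deg1 : ∀ i, (F i).1 ∈ degreeLT k (a + 1)
  deg2 : ∀ i, (F i).2 ∈ degreeLT k (b + 1)
  cen : ∀ i, c (F i) = 0
  ev1 : ∀ i, (F i).1.eval (t i) = 0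
  ev2 : ∀ i, (F i).2.eval (t i) = 0
  tan : ∀ i, α i * (derivative (F i).1).eval (t i) + β i * (derivative (F i).2).eval (t i) = 0
  rel1 : ∀ P ∈ degreeLT k (a + 1), ∑ i, (α i * P.eval (t i)) • F i = 0
  rel2 : ∀ Q ∈ degreeLT k (b + 1), ∑ i, (β i * Q.eval (t i)) • F i = 0

/-- the auxiliary condition at the new point -/
def ZC {ι : Type} [Fintype ι] (a b : ℕ) (t α β : ι → k) (τ : k) : Prop :=
  ∀ y : ι → k, (∀ P ∈ degreeLT k (a + 1), ∑ i, y i * α i * P.eval (t i) = 0) →
    (∀ Q ∈ degreeLT k (b + 1), ∑ i, y i * β i * Q.eval (t i) = 0) →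
    ∑ i, y i * α i / (t i - τ) = 0 → ∑ i, y i * β i / (t i - τ) = 0 →
    ∑ i, y i * α i / (t i - τ) ^ 2 = 0 → y = 0

def ext {ι : Type} (x0 : k) (x : ι → k) : Option ι → k
  | none => x0
  | some i => x i

lemma InK.swap {ι : Type} [Fintype ι] {a b : ℕ} {c : (k[X] × k[X]) →ₗ[k] k} {t α β : ι → k}
    {F : ι → k[X] × k[X]}
    (h : InK b a (c.comp (LinearEquiv.prodComm k k[X] k[X]).toLinearMap) t β α F) :
    InK a b c t α β (fun i => (F i).swap) where
  deg1 := h.deg2
  deg2 := h.deg1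
  cen := h.cen
  ev1 := h.ev2
  ev2 := h.ev1
  tan i := by
    have := h.tan i
    rw [add_comm] at this
    exact this
  rel1 P hP := by
    have := congrArg (LinearEquiv.prodComm k k[X] k[X]) (h.rel2 P hP)
    rw [map_sum, map_zero] at this
    simpa using this
  rel2 P hP := by
    have := congrArg (LinearEquiv.prodComm k k[X] k[X]) (h.rel1 P hP)
    rw [map_sum, map_zero] at this
    simpa using this

variable (k) in
/-- the statement proved by induction -/
def Good (a b e : ℕ) : Prop :=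
  ∃ (ι : Type) (_ : Fintype ι) (t α β : ι → k) (t0 α0 β0 : k) (c : (k[X] × k[X]) →ₗ[k] k),
    Fintype.card ι = a + b + 5 ∧ (∀ i, α i + β i ≠ 0) ∧ α0 + β0 ≠ 0 ∧
    c (X ^ a, 0) ≠ 0 ∧ c (0, X ^ b) ≠ 0 ∧
    (∃ l : Fin e → ((k[X] × k[X]) →ₗ[k] k), ∀ F : Option ι → k[X] × k[X],
      InK a b c (ext t0 t) (ext α0 α) (ext β0 β) F → (∀ j, l j (F none) = 0) → F = 0) ∧
    (∃ B : Finset k, ∀ τ ∉ B, ZC a b t α β τ ∧ ZC b a t β α τ)

lemma Good.swap {a b e : ℕ} (h : Good k a b e) : Good k b a e := by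
  obtain ⟨ι, _, t, α, β, t0, α0, β0, c, hcard, hab, hab0, hc1, hc2, ⟨l, hl⟩, B, hB⟩ := h
  refine ⟨ι, inferInstance, t, β, α, t0, β0, α0,
    c.comp (LinearEquiv.prodComm k k[X] k[X]).toLinearMap, by omega,
    fun i => by rw [add_comm]; exact hab i, by rw [add_comm]; exact hab0, hc2, hc1,
    ⟨fun j => (l j).comp (LinearEquiv.prodComm k k[X] k[X]).toLinearMap, ?_⟩,
    B, fun τ hτ => ⟨(hB τ hτ).2, (hB τ hτ).1⟩⟩
  intro F hF hj
  have := hl _ hF.swap hj
  ext1 o
  have h2 := congrFun this o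
  have h3 : (F o).swap = 0 := h2
  rw [← Prod.swap_swap (F o), h3]
  rfl

end Pool.Agent.W507.Scroll
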