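import Mathlib
import Pool.Agent.W507.Scr.KSpace

/-!
# The induction step
-/

set_option autoImplicit false

namespace Pool.Agent.W507.Scroll

open Polynomial

variable {k : Type*} [Field k]

lemma eval_of_mem {P : k[X]} {n : ℕ} (h : P ∈ degreeLT k n) (x : k) :
    P.eval x = ∑ j ∈ Finset.range n, P.coeff j * x ^ j := by
  rcases n with _ | n
  · have : P = 0 := by
      rw [mem_degreeLT] at h
      by_contra h0
      rw [degree_eq_natDegree h0] at h
      exact absurd h (by simp)
    simp [this]
  · apply eval_eq_sum_range'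
    rw [mem_degreeLT] at h
    by_cases h0 : P = 0
    · simp [h0]
    · rw [degree_eq_natDegree h0] at h
      exact_mod_cast h

lemma X_pow_mem {n j : ℕ} (h : j < n) : (X ^ j : k[X]) ∈ degreeLT k n := by
  rw [mem_degreeLT, degree_X_pow]
  exact_mod_cast h

section trace

variable {κ : Type} [Fintype κ] {a b : ℕ} {t A B : κ → k} {G : κ → k[X] × k[X]}

lemma rel_coeff1 (h : ∀ P ∈ degreeLT k (a + 1), ∑ o, (A o * P.eval (t o)) • G o = 0)
    {j : ℕ} (hj : j ≤ a) (i : ℕ) : ∑ o, A o * t o ^ j * (G o).1.coeff i = 0 := by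
  have h1 := congrArg (fun p => (Prod.fst p).coeff i) (h (X ^ j) (X_pow_mem (by omega)))
  simpa [Prod.fst_sum, finsetSum_coeff] using h1

lemma rel_coeff2 (h : ∀ P ∈ degreeLT k (a + 1), ∑ o, (A o * P.eval (t o)) • G o = 0)
    {j : ℕ} (hj : j ≤ a) (i : ℕ) : ∑ o, A o * t o ^ j * (G o).2.coeff i = 0 := by
  have h1 := congrArg (fun p => (Prod.snd p).coeff i) (h (X ^ j) (X_pow_mem (by omega)))
  simpa [Prod.snd_sum, finsetSum_coeff] using h1

lemma trace1 (hab : a ≤ b) (hd1 : ∀ o, (G o).1 ∈ degreeLT k (a + 1))
    (h2 : ∀ Q ∈ degreeLT k (b + 1), ∑ o, (B o * Q.eval (t o)) • G o = 0) :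
    ∑ o, B o * (G o).1.eval (t o) = 0 := by
  simp only [eval_of_mem (hd1 _), Finset.mul_sum]
  rw [Finset.sum_comm]
  refine Finset.sum_eq_zero fun j hj => ?_
  rw [← rel_coeff1 h2 (j := j) (by simp at hj; omega) j]
  refine Finset.sum_congr rfl fun o _ => ?_
  ring

lemma trace2 (hd1 : ∀ o, (G o).1 ∈ degreeLT k (a + 1)) (hd2 : ∀ o, (G o).2 ∈ degreeLT k (b + 1))
    (h1 : ∀ P ∈ degreeLT k (a + 1), ∑ o, (A o * P.eval (t o)) • G o = 0)
    (h2 : ∀ Q ∈ degreeLT k (b + 1), ∑ o, (B o * Q.eval (t o)) • G o = 0) :
    ∑ o, (A o * (derivative (G o).1).eval (t o) + B o * (derivative (G o).2).eval (t o)) = 0 := by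
  have hdd : ∀ (n : ℕ) (P : k[X]), P ∈ degreeLT k (n + 1) → derivative P ∈ degreeLT k (n + 1) := by
    intro n P hP
    rw [mem_degreeLT] at hP ⊢
    exact lt_of_le_of_lt degree_derivative_le hP
  rw [Finset.sum_add_distrib]
  have e1 : ∑ o, A o * (derivative (G o).1).eval (t o) = 0 := by
    simp only [eval_of_mem (hdd _ _ (hd1 _)), Finset.mul_sum]
    rw [Finset.sum_comm]
    refine Finset.sum_eq_zero fun j hj => ?_
    have := rel_coeff1 h1 (j := j) (by simp at hj; omega) (j + 1)
    rw [← mul_zero ((j : k) + 1), ← this, Finset.mul_sum]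
    refine Finset.sum_congr rfl fun o _ => ?_
    rw [coeff_derivative]
    ring
  have e2 : ∑ o, B o * (derivative (G o).2).eval (t o) = 0 := by
    simp only [eval_of_mem (hdd _ _ (hd2 _)), Finset.mul_sum]
    rw [Finset.sum_comm]
    refine Finset.sum_eq_zero fun j hj => ?_
    have := rel_coeff2 h2 (j := j) (by simp at hj; omega) (j + 1)
    rw [← mul_zero ((j : k) + 1), ← this, Finset.mul_sum]
    refine Finset.sum_congr rfl fun o _ => ?_
    rw [coeff_derivative]
    ring
  rw [e1, e2, add_zero]

end trace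

/-- the functional after the elementary transformation -/
noncomputable def cnew (c : (k[X] × k[X]) →ₗ[k] k) (τ : k) : (k[X] × k[X]) →ₗ[k] k :=
  c.comp ((Dv τ).prodMap LinearMap.id)

lemma cnew_apply (c : (k[X] × k[X]) →ₗ[k] k) (τ : k) (P Q : k[X]) :
    cnew c τ (P, Q) = c (Dv τ P, Q) := rfl

section ZC

variable {ι : Type} [Fintype ι] {a b : ℕ} {t α β : ι → k}

lemma ZC_step1 {τ τ0 : k} (ht : ∀ i, t i ≠ τ) (ht0 : ∀ i, t i ≠ τ0) (hτ : τ ≠ τ0)
    (h : ZC a b t α β τ) :
    ZC (a + 1) b (ext τ0 t) (ext 1 α) (ext 0 (fun i => β i * (t i - τ0))) τ := by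
  intro y' h1 h2 h3 h4 h5
  simp only [Fintype.sum_option, ext] at h1 h2 h3 h4 h5
  have hs : ∀ i, t i - τ ≠ 0 := fun i => sub_ne_zero.2 (ht i)
  have hs0 : ∀ i, t i - τ0 ≠ 0 := fun i => sub_ne_zero.2 (ht0 i)
  have hτ' : τ0 - τ ≠ 0 := sub_ne_zero.2 hτ.symm
  have hone : y' none + ∑ i, y' (some i) * α i = 0 := by
    have := h1 1 (by
      rw [mem_degreeLT, degree_one]
      exact_mod_cast Nat.succ_pos _)
    simpa using this
  have key : (fun i => y' (some i) * (t i - τ0)) = 0 := by
    apply h
    · intro P hP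
      have := h1 ((X - C τ0) * P) (by
        by_cases h0 : P = 0
        · rw [h0, mul_zero]
          exact Submodule.zero_mem _
        · rw [mem_degreeLT] at hP ⊢
          rw [degree_mul, degree_X_sub_C]
          rw [degree_eq_natDegree h0] at hP ⊢
          have : P.natDegree < a + 1 := by exact_mod_cast hP
          exact_mod_cast (by omega : 1 + P.natDegree < a + 1 + 1))
      simp only [eval_mul, eval_sub, eval_X, eval_C, sub_self, zero_mul, mul_zero, zero_add]
        at this
      rw [← this]
      refine Finset.sum_congr rfl fun i _ => ?_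
      ring
    · intro Q hQ
      have := h2 Q hQ
      rw [mul_zero, zero_mul, zero_add] at this
      rw [← this]
      refine Finset.sum_congr rfl fun i _ => ?_
      ring
    · have e : ∀ i, y' (some i) * (t i - τ0) * α i / (t i - τ) =
          y' (some i) * α i + (τ - τ0) * (y' (some i) * α i / (t i - τ)) := by
        intro i
        have := hs i
        field_simp
        ring
      rw [Finset.sum_congr rfl fun i _ => e i, Finset.sum_add_distrib, ← Finset.mul_sum]
      have e2 : ∑ i, y' (some i) * α i / (t i - τ) = - (y' none * 1 / (τ0 - τ)) := by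
        linear_combination h3
      rw [e2]
      field_simp
      linear_combination (τ0 - τ) * hone
    · rw [mul_zero, zero_div, zero_add] at h4
      rw [← h4]
      refine Finset.sum_congr rfl fun i _ => ?_
      ring
    · have e : ∀ i, y' (some i) * (t i - τ0) * α i / (t i - τ) ^ 2 =
          y' (some i) * α i / (t i - τ) + (τ - τ0) * (y' (some i) * α i / (t i - τ) ^ 2) := by
        intro i
        have := hs i
        field_simp
        ring
      rw [Finset.sum_congr rfl fun i _ => e i, Finset.sum_add_distrib, ← Finset.mul_sum]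
      have e2 : ∑ i, y' (some i) * α i / (t i - τ) = - (y' none * 1 / (τ0 - τ)) := by
        linear_combination h3
      have e3 : ∑ i, y' (some i) * α i / (t i - τ) ^ 2 = - (y' none * 1 / (τ0 - τ) ^ 2) := by
        linear_combination h5
      rw [e2, e3]
      field_simp
      ring
  have hi : ∀ i, y' (some i) = 0 := by
    intro i
    have := congrFun key i
    exact (mul_eq_zero.1 this).resolve_right (hs0 i)
  ext1 o
  rcases o with _ | i
  · simpa [hi] using hone
  · exact hi i

lemma ZC_step2 {τ τ0 : k} (ht : ∀ i, t i ≠ τ) (ht0 : ∀ i, t i ≠ τ0) (hτ : τ ≠ τ0)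
    (h : ZC b a t β α τ) :
    ZC b (a + 1) (ext τ0 t) (ext 0 (fun i => β i * (t i - τ0))) (ext 1 α) τ := by
  intro y' h2 h1 h4 h3 h5
  simp only [Fintype.sum_option, ext] at h1 h2 h3 h4 h5
  have hs : ∀ i, t i - τ ≠ 0 := fun i => sub_ne_zero.2 (ht i)
  have hs0 : ∀ i, t i - τ0 ≠ 0 := fun i => sub_ne_zero.2 (ht0 i)
  have hτ' : τ0 - τ ≠ 0 := sub_ne_zero.2 hτ.symm
  have hone : y' none + ∑ i, y' (some i) * α i = 0 := by
    have := h1 1 (by
      rw [mem_degreeLT, degree_one]
      exact_mod_cast Nat.succ_pos _)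
    simpa using this
  have key : (fun i => y' (some i) * (t i - τ0)) = 0 := by
    apply h
    · intro Q hQ
      have := h2 Q hQ
      rw [mul_zero, zero_mul, zero_add] at this
      rw [← this]
      refine Finset.sum_congr rfl fun i _ => ?_
      ring
    · intro P hP
      have := h1 ((X - C τ0) * P) (by
        by_cases h0 : P = 0
        · rw [h0, mul_zero]
          exact Submodule.zero_mem _
        · rw [mem_degreeLT] at hP ⊢
          rw [degree_mul, degree_X_sub_C]
          rw [degree_eq_natDegree h0] at hP ⊢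
          have : P.natDegree < a + 1 := by exact_mod_cast hP
          exact_mod_cast (by omega : 1 + P.natDegree < a + 1 + 1))
      simp only [eval_mul, eval_sub, eval_X, eval_C, sub_self, zero_mul, mul_zero, zero_add]
        at this
      rw [← this]
      refine Finset.sum_congr rfl fun i _ => ?_
      ring
    · rw [mul_zero, zero_div, zero_add] at h4
      rw [← h4]
      refine Finset.sum_congr rfl fun i _ => ?_
      ring
    · have e : ∀ i, y' (some i) * (t i - τ0) * α i / (t i - τ) =
          y' (some i) * α i + (τ - τ0) * (y' (some i) * α i / (t i - τ)) := by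
        intro i
        have := hs i
        field_simp
        ring
      rw [Finset.sum_congr rfl fun i _ => e i, Finset.sum_add_distrib, ← Finset.mul_sum]
      have e2 : ∑ i, y' (some i) * α i / (t i - τ) = - (y' none * 1 / (τ0 - τ)) := by
        linear_combination h3
      rw [e2]
      field_simp
      linear_combination (τ0 - τ) * hone
    · rw [mul_zero, zero_div, zero_add] at h5
      rw [← h5]
      refine Finset.sum_congr rfl fun i _ => ?_
      ring
  have hi : ∀ i, y' (some i) = 0 := by
    intro i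
    have := congrFun key i
    exact (mul_eq_zero.1 this).resolve_right (hs0 i)
  ext1 o
  rcases o with _ | i
  · simpa [hi] using hone
  · exact hi i

end ZC

end Pool.Agent.W507.Scroll
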