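import Mathlib
import Pool.Agent.W507.Scr.Step

/-!
# The induction step, conclusion
-/

set_option autoImplicit false

namespace Pool.Agent.W507.Scroll

open Polynomial

variable {k : Type*} [Field k]

lemma one_mem (n : ℕ) : (1 : k[X]) ∈ degreeLT k (n + 1) := by
  rw [mem_degreeLT, degree_one]
  exact_mod_cast Nat.succ_pos _

lemma X_sub_mul_mem {τ : k} {P : k[X]} {n : ℕ} (h : P ∈ degreeLT k n) :
    (X - C τ) * P ∈ degreeLT k (n + 1) := by
  by_cases h0 : P = 0
  · rw [h0, mul_zero]
    exact Submodule.zero_mem _
  · rw [mem_degreeLT] at h ⊢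
    rw [degree_mul, degree_X_sub_C]
    rw [degree_eq_natDegree h0] at h ⊢
    have : P.natDegree < n := by exact_mod_cast h
    exact_mod_cast (by omega : 1 + P.natDegree < n + 1)

section core

variable {ι : Type} [Fintype ι] {a b e : ℕ} {t α β : ι → k} {t0 α0 β0 τ : k}
  {c : (k[X] × k[X]) →ₗ[k] k} {l : Fin e → ((k[X] × k[X]) →ₗ[k] k)}

/-- the new points -/
def tn (t : ι → k) (t0 τ : k) : Option (Option ι) → k := ext t0 (ext τ t)
def αn (α : ι → k) (α0 : k) : Option (Option ι) → k := ext α0 (ext 1 α)
def βn (β : ι → k) (β0 : k) (t : ι → k) (t0 τ : k) : Option (Option ι) → k :=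
  ext (β0 * (t0 - τ)) (ext 0 (fun i => β i * (t i - τ)))

/-- embedding of the old points -/
def old : Option ι → Option (Option ι)
  | none => none
  | some i => some (some i)

lemma sum_new {M : Type*} [AddCommMonoid M] (f : Option (Option ι) → M) :
    ∑ o, f o = f (some none) + ∑ o : Option ι, f (old o) := by
  simp only [Fintype.sum_option, old]
  exact add_left_comm _ _ _

lemma tn_old (o : Option ι) : tn t t0 τ (old o) = ext t0 t o := by
  cases o <;> rfl

lemma αn_old (o : Option ι) : αn α α0 (old o) = ext α0 α o := by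
  cases o <;> rfl

lemma βn_old (o : Option ι) : βn β β0 t t0 τ (old o) = ext β0 β o * (ext t0 t o - τ) := by
  cases o <;> rfl

theorem core (hab : a ≤ b) (ht : ∀ i, t i ≠ τ) (ht0 : t0 ≠ τ) (hZ : ZC a b t α β τ)
    (hl : ∀ F : Option ι → k[X] × k[X], InK a b c (ext t0 t) (ext α0 α) (ext β0 β) F →
      (∀ j, l j (F none) = 0) → F = 0)
    (F : Option (Option ι) → k[X] × k[X])
    (hF : InK (a + 1) b (cnew c τ) (tn t t0 τ) (αn α α0) (βn β β0 t t0 τ) F)
    (hu0 : (F none).1.eval τ = 0)
    (hlF : ∀ j, l j ((t0 - τ) • (Dv τ (F none).1, (F none).2)) = 0) : F = 0 := by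
  have hs : ∀ o : Option ι, ext t0 t o - τ ≠ 0 := by
    intro o
    cases o
    · exact sub_ne_zero.2 ht0
    · exact sub_ne_zero.2 (ht _)
  let G : Option ι → k[X] × k[X] := fun o => (Dv τ (F (old o)).1, (F (old o)).2)
  let u : Option ι → k := fun o => (F (old o)).1.eval τ
  have hG1 : ∀ o, (G o).1 ∈ degreeLT k (a + 1) := fun o => Dv_mem (hF.deg1 _)
  have hG2 : ∀ o, (G o).2 ∈ degreeLT k (b + 1) := fun o => hF.deg2 _
  -- the relations for the old sections
  have r1' : ∀ P ∈ degreeLT k (a + 1 + 1),
      (P.eval τ) • F (some none) + ∑ o : Option ι, (ext α0 α o * P.eval (ext t0 t o)) •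
        F (old o) = 0 := by
    intro P hP
    have := hF.rel1 P hP
    rw [sum_new] at this
    simp only [tn_old, αn_old] at this
    simpa [tn, αn, ext] using this
  have r2' : ∀ Q ∈ degreeLT k (b + 1), ∑ o : Option ι,
      ((ext β0 β o * (ext t0 t o - τ)) * Q.eval (ext t0 t o)) • F (old o) = 0 := by
    intro Q hQ
    have := hF.rel2 Q hQ
    rw [sum_new] at this
    simp only [tn_old, βn_old] at this
    simpa [tn, βn, ext] using this
  have hDv : ∀ (w : Option ι → k), ∑ o, w o • F (old o) = 0 → ∑ o, w o • G o = 0 := by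
    intro w hw
    have := congrArg ((Dv τ).prodMap (LinearMap.id : k[X] →ₗ[k] k[X])) hw
    rw [map_sum, map_zero] at this
    simp only [map_smul] at this
    exact this
  have R1 : ∀ P ∈ degreeLT k (a + 1), ∑ o : Option ι,
      ((ext α0 α o * (ext t0 t o - τ)) * P.eval (ext t0 t o)) • G o = 0 := by
    intro P hP
    apply hDv
    have := r1' ((X - C τ) * P) (X_sub_mul_mem hP)
    simp only [eval_mul, eval_sub, eval_X, eval_C, sub_self, zero_mul, zero_smul, zero_add]
      at this
    rw [← this]
    refine Finset.sum_congr rfl fun o _ => ?_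
    congr 1
    ring
  have R2 : ∀ Q ∈ degreeLT k (b + 1), ∑ o : Option ι,
      ((ext β0 β o * (ext t0 t o - τ)) * Q.eval (ext t0 t o)) • G o = 0 :=
    fun Q hQ => hDv _ (r2' Q hQ)
  -- values at the old points
  have hP : ∀ o, (F (old o)).1 = C (u o) + (X - C τ) * (G o).1 := fun o => Dv_spec τ _
  have hval : ∀ o, (ext t0 t o - τ) * (G o).1.eval (ext t0 t o) = - u o := by
    intro o
    have h1 := hF.ev1 (old o)
    rw [tn_old, hP o] at h1
    simp only [eval_add, eval_C, eval_mul, eval_sub, eval_X] at h1
    linear_combination h1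
  have htan : ∀ o, (ext t0 t o - τ) * (ext α0 α o * (derivative (G o).1).eval (ext t0 t o) +
      ext β0 β o * (derivative (G o).2).eval (ext t0 t o)) =
      - ext α0 α o * (G o).1.eval (ext t0 t o) := by
    intro o
    have h1 := hF.tan (old o)
    rw [tn_old, αn_old, βn_old, hP o] at h1
    simp only [derivative_add, derivative_C, zero_add, derivative_mul, derivative_sub,
      derivative_X, sub_zero, one_mul, eval_add, eval_mul, eval_sub, eval_X, eval_C] at h1
    change _ + _ * eval _ (derivative (G o).2) = 0 at h1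
    linear_combination h1
  have hu0' : u none = 0 := hu0
  have hunew : (F (some none)).1.eval τ = 0 := hF.ev1 (some none)
  -- evaluation at `τ`
  have E1 : ∀ P ∈ degreeLT k (a + 1 + 1), ∑ o : Option ι, ext α0 α o * P.eval (ext t0 t o) * u o
      = 0 := by
    intro P hP
    have := congrArg (fun p => (Prod.fst p).eval τ) (r1' P hP)
    simpa [Prod.fst_sum, eval_finsetSum, hunew] using this
  have E2 : ∀ Q ∈ degreeLT k (b + 1), ∑ o : Option ι,
      ((ext β0 β o * (ext t0 t o - τ)) * Q.eval (ext t0 t o)) * u o = 0 := by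
    intro Q hQ
    have := congrArg (fun p => (Prod.fst p).eval τ) (r2' Q hQ)
    simpa [Prod.fst_sum, eval_finsetSum] using this
  have hy : (fun i => u (some i) * (t i - τ)) = 0 := by
    apply hZ
    · intro P hP
      have := E1 ((X - C τ) * P) (X_sub_mul_mem hP)
      rw [Fintype.sum_option, hu0', mul_zero, zero_add] at this
      rw [← this]
      refine Finset.sum_congr rfl fun i _ => ?_
      simp only [ext, eval_mul, eval_sub, eval_X, eval_C]
      ring
    · intro Q hQ
      have := E2 Q hQ
      rw [Fintype.sum_option, hu0', mul_zero, zero_add] at this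
      rw [← this]
      refine Finset.sum_congr rfl fun i _ => ?_
      simp only [ext]
      ring
    · have := E1 1 (one_mem _)
      rw [Fintype.sum_option, hu0', mul_zero, zero_add] at this
      rw [← this]
      refine Finset.sum_congr rfl fun i _ => ?_
      have h1 := hs (some i)
      simp only [ext, eval_one] at h1 ⊢
      field_simp
    · have := trace1 hab hG1 R2
      have e : ∀ o : Option ι, ext β0 β o * (ext t0 t o - τ) * (G o).1.eval (ext t0 t o) =
          - (ext β0 β o * u o) := by
        intro o
        linear_combination (ext β0 β o) * hval o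
      rw [Finset.sum_congr rfl fun o _ => e o, Finset.sum_neg_distrib, neg_eq_zero,
        Fintype.sum_option, hu0', mul_zero, zero_add] at this
      rw [← this]
      refine Finset.sum_congr rfl fun i _ => ?_
      have h1 := hs (some i)
      simp only [ext] at h1 ⊢
      field_simp
    · have := trace2 hG1 hG2 R1 R2
      have e : ∀ o : Option ι, ext α0 α o * (ext t0 t o - τ) *
          (derivative (G o).1).eval (ext t0 t o) + ext β0 β o * (ext t0 t o - τ) *
          (derivative (G o).2).eval (ext t0 t o) = ext α0 α o * u o / (ext t0 t o - τ) := by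
        intro o
        rw [eq_div_iff (hs o)]
        linear_combination (ext t0 t o - τ) * htan o - (ext α0 α o) * hval o
      rw [Finset.sum_congr rfl fun o _ => e o, Fintype.sum_option, hu0', mul_zero, zero_div,
        zero_add] at this
      rw [← this]
      refine Finset.sum_congr rfl fun i _ => ?_
      have h1 := hs (some i)
      simp only [ext] at h1 ⊢
      field_simp
  have hu : ∀ o, u o = 0 := by
    intro o
    rcases o with _ | i
    · exact hu0'
    · have := congrFun hy i
      exact (mul_eq_zero.1 this).resolve_right (hs (some i))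
  have hGt : (fun o => (ext t0 t o - τ) • G o) = 0 := by
    apply hl
    · refine ⟨fun o => ?_, fun o => ?_, fun o => ?_, fun o => ?_, fun o => ?_, fun o => ?_, ?_, ?_⟩
      · exact Submodule.smul_mem _ _ (hG1 o)
      · exact Submodule.smul_mem _ _ (hG2 o)
      · rw [map_smul]
        have : c (G o) = 0 := hF.cen (old o)
        rw [this, smul_zero]
      · have := hval o
        rw [hu o, neg_zero] at this
        simpa using this
      · have := hF.ev2 (old o)
        rw [tn_old] at this
        simp [G, this]
      · have h1 := htan o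
        have h2 := hval o
        rw [hu o, neg_zero] at h2
        have h3 := (mul_eq_zero.1 h2).resolve_left (hs o)
        rw [h3, mul_zero] at h1
        simp only [Prod.smul_fst, Prod.smul_snd, derivative_smul, eval_smul, smul_eq_mul]
        linear_combination h1
      · intro P hP
        rw [← R1 P hP]
        refine Finset.sum_congr rfl fun o _ => ?_
        rw [smul_smul]
        congr 1
        ring
      · intro P hP
        rw [← R2 P hP]
        refine Finset.sum_congr rfl fun o _ => ?_
        rw [smul_smul]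
        congr 1
        ring
    · exact hlF
  have hG0 : ∀ o, G o = 0 := by
    intro o
    have := congrFun hGt o
    exact (smul_eq_zero.1 this).resolve_left (hs o)
  have hFold : ∀ o, F (old o) = 0 := by
    intro o
    have h1 := hP o
    have h2 : (G o).1 = 0 := by rw [hG0 o]; rfl
    have h3 : (F (old o)).2 = 0 := by
      have := congrArg Prod.snd (hG0 o)
      exact this
    rw [h2, hu o, mul_zero, map_zero, add_zero] at h1
    exact Prod.ext h1 h3
  have hFnew : F (some none) = 0 := by
    have := r1' 1 (one_mem _)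
    simp only [eval_one, one_smul, mul_one] at this
    rw [Finset.sum_eq_zero (fun o _ => by rw [hFold o, smul_zero]), add_zero] at this
    exact this
  ext1 o
  rcases o with _ | _ | i
  · exact hFold none
  · exact hFnew
  · exact hFold (some i)

end core

theorem Good.step [Infinite k] {a b e : ℕ} (hab : a ≤ b) (h : Good k a b e) :
    Good k (a + 1) b (e + 1) := by
  classical
  obtain ⟨ι, _, t, α, β, t0, α0, β0, c, hcard, hαβ, hαβ0, hc1, hc2, ⟨l, hl⟩, B, hB⟩ := h
  -- the polynomial that controls the functional
  let R : k[X] := ∑ j ∈ Finset.range (a + 1), C (c (X ^ j, 0)) * X ^ (a - j)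
  have hR : R ≠ 0 := by
    intro h0
    have h1 := congrArg (fun p => p.eval 0) h0
    simp only [R, eval_finsetSum, eval_mul, eval_C, eval_pow, eval_X, eval_zero] at h1
    rw [Finset.sum_range_succ, Finset.sum_eq_zero, Nat.sub_self, pow_zero, mul_one,
      zero_add] at h1
    · exact hc1 h1
    · intro j hj
      have : a - j ≠ 0 := by
        simp at hj
        omega
      rw [zero_pow this, mul_zero]
  let bad : Finset k := B ∪ Finset.univ.image t ∪ {t0} ∪ R.roots.toFinset ∪
    Finset.univ.image (fun i => t i + α i / β i) ∪ {t0 + α0 / β0}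
  obtain ⟨τ, hτ⟩ := Infinite.exists_notMem_finset bad
  simp only [bad, Finset.mem_union, Finset.mem_image, Finset.mem_univ, true_and,
    Finset.mem_singleton, not_or, not_exists, Multiset.mem_toFinset, mem_roots hR,
    IsRoot.def] at hτ
  obtain ⟨⟨⟨⟨⟨hτB, hτt⟩, hτ0⟩, hτR⟩, hτα⟩, hτα0⟩ := hτ
  have hDX : Dv τ (X ^ (a + 1)) = ∑ j ∈ Finset.range (a + 1), C (τ ^ (a - j)) * X ^ j := by
    have hne : (X - C τ : k[X]) ≠ 0 := X_sub_C_ne_zero τ
    apply mul_left_cancel₀ hne
    have h1 := Dv_spec τ (X ^ (a + 1))
    rw [eval_pow, eval_X] at h1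
    have h2 : (X - C τ) * Dv τ (X ^ (a + 1)) = X ^ (a + 1) - C (τ ^ (a + 1)) :=
      (sub_eq_of_eq_add' h1).symm
    rw [h2]
    have h3 := Commute.geom_sum₂_mul (Commute.all (X : k[X]) (C τ)) (a + 1)
    rw [mul_comm] at h3
    rw [C_pow, ← h3]
    congr 1
    refine Finset.sum_congr rfl fun j _ => ?_
    rw [C_pow, Nat.add_sub_cancel]
    ring
  refine ⟨Option ι, inferInstance, ext τ t, ext 1 α, ext 0 (fun i => β i * (t i - τ)), t0, α0,
    β0 * (t0 - τ), cnew c τ, ?_, ?_, ?_, ?_, ?_, ⟨Fin.snoc (fun j =>
      (l j).comp ((t0 - τ) • ((Dv τ).prodMap LinearMap.id)))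
      ((Polynomial.aeval τ).toLinearMap.comp (LinearMap.fst k k[X] k[X])), ?_⟩, ?_⟩
  · rw [Fintype.card_option, hcard]
    omega
  · intro o
    rcases o with _ | i
    · simp [ext]
    · simp only [ext]
      intro h0
      by_cases hb : β i = 0
      · have := hαβ i
        rw [hb] at h0 this
        simp at h0 this
        exact this h0
      · apply hτα i
        field_simp
        linear_combination h0
  · intro h0
    by_cases hb : β0 = 0
    · rw [hb] at h0 hαβ0
      simp at h0 hαβ0
      exact hαβ0 h0
    · apply hτα0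
      field_simp
      linear_combination -h0
  · rw [cnew_apply, hDX]
    have : c (∑ j ∈ Finset.range (a + 1), C (τ ^ (a - j)) * X ^ j, 0) = R.eval τ := by
      simp only [R, eval_finsetSum, eval_mul, eval_C, eval_pow, eval_X]
      have : ((∑ j ∈ Finset.range (a + 1), C (τ ^ (a - j)) * X ^ j, 0) : k[X] × k[X]) =
          ∑ j ∈ Finset.range (a + 1), (τ ^ (a - j)) • ((X ^ j, 0) : k[X] × k[X]) := by
        ext1
        · simp [Prod.fst_sum, smul_eq_C_mul]
        · simp [Prod.snd_sum]
      rw [this, map_sum]
      refine Finset.sum_congr rfl fun j _ => ?_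
      rw [map_smul, smul_eq_mul, mul_comm]
    rw [this]
    exact hτR
  · rw [cnew_apply, map_zero]
    exact hc2
  · intro F hF hj
    have hF' : InK (a + 1) b (cnew c τ) (tn t t0 τ) (αn α α0) (βn β β0 t t0 τ) F := hF
    refine core hab (fun i => fun h => hτt i h) (fun h => hτ0 h.symm) (hB τ hτB).1 hl F hF' ?_ ?_
    · have := hj (Fin.last e)
      rw [Fin.snoc_last] at this
      simpa using this
    · intro j
      have := hj j.castSucc
      rw [Fin.snoc_castSucc] at this
      exact this
  · refine ⟨B ∪ Finset.univ.image t ∪ {τ}, fun σ hσ => ?_⟩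
    simp only [Finset.mem_union, Finset.mem_image, Finset.mem_univ, true_and,
      Finset.mem_singleton, not_or, not_exists] at hσ
    obtain ⟨⟨h1, h2⟩, h3⟩ := hσ
    exact ⟨ZC_step1 h2 hτt h3 (hB σ h1).1, ZC_step2 h2 hτt h3 (hB σ h1).2⟩

end Pool.Agent.W507.Scroll
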