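import Mathlib
import Pool.Agent.W507.Scr.Main
import Pool.Agent.W507.GenMod
import Pool.Agent.W507.Fam

/-!
# From the linear systems to the rank of the tangent matrix
-/

set_option autoImplicit false

namespace Pool.Agent.W507.Scroll

open Polynomial Module

variable {k : Type*} [Field k]

/-- exponents of the sections of the scroll of type `(a, b)` -/
def exS (a b : ℕ) (j : Fin (a + b + 2)) : ℕ × ℕ :=
  if (j : ℕ) ≤ a then ((j : ℕ), 0) else ((j : ℕ) - (a + 1), 1)

/-- sections vanishing at the center of the projection -/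
noncomputable def AS (N : ℕ) (n : Fin N) (j : Fin (N + 1)) : MvPolynomial (Fin N) k :=
  if j = n.castSucc then 1 else if j = Fin.last N then - MvPolynomial.X n else 0

lemma sum_AS {N : ℕ} (m : Fin N → k) (n : Fin N) (v : Fin (N + 1) → k) :
    ∑ j, MvPolynomial.eval m (AS N n j) * v j = v n.castSucc - m n * v (Fin.last N) := by
  rw [Fin.sum_univ_castSucc]
  have h1 : ∀ j : Fin N, MvPolynomial.eval m (AS N n j.castSucc) * v j.castSucc =
      if j = n then v n.castSucc else 0 := by
    intro j
    unfold AS
    by_cases h : j = n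
    · subst h; simp
    · have h2 : j.castSucc ≠ n.castSucc := fun h3 => h (Fin.castSucc_injective _ h3)
      have h3 : j.castSucc ≠ Fin.last N := (Fin.castSucc_lt_last j).ne
      simp [h, h2, h3]
  rw [Finset.sum_congr rfl fun j _ => h1 j]
  have h4 : Fin.last N ≠ n.castSucc := (Fin.castSucc_lt_last n).ne'
  simp [AS, h4]
  ring

lemma sum_dAS {N : ℕ} (m : Fin N → k) (s n : Fin N) (v : Fin (N + 1) → k) :
    ∑ j, MvPolynomial.eval m (MvPolynomial.pderiv s (AS N n j)) * v j =
      if s = n then - v (Fin.last N) else 0 := by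
  rw [Fin.sum_univ_castSucc]
  have h1 : ∀ j : Fin N, MvPolynomial.eval m (MvPolynomial.pderiv s (AS N n j.castSucc)) *
      v j.castSucc = 0 := by
    intro j
    unfold AS
    have h3 : j.castSucc ≠ Fin.last N := (Fin.castSucc_lt_last j).ne
    by_cases h : j.castSucc = n.castSucc
    · simp [h]
    · simp [h, h3]
  rw [Finset.sum_congr rfl fun j _ => h1 j]
  have h4 : Fin.last N ≠ n.castSucc := (Fin.castSucc_lt_last n).ne'
  by_cases hs : s = n
  · subst hs
    simp [AS, h4]
  · simp [AS, h4, hs, MvPolynomial.pderiv_X_of_ne (Ne.symm hs)]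

/-- the standard sections -/
noncomputable def sec (a b : ℕ) (j : Fin (a + b + 2)) : k[X] × k[X] :=
  if (j : ℕ) ≤ a then (X ^ (j : ℕ), 0) else (0, X ^ ((j : ℕ) - (a + 1)))

/-- coordinates of a section -/
noncomputable def cf (a b : ℕ) (j : Fin (a + b + 2)) (F : k[X] × k[X]) : k :=
  if (j : ℕ) ≤ a then F.1.coeff j else F.2.coeff ((j : ℕ) - (a + 1))

lemma cf_sec (a b : ℕ) (i j : Fin (a + b + 2)) :
    cf a b i (sec (k := k) a b j) = if i = j then 1 else 0 := by
  unfold cf sec
  by_cases hi : (i : ℕ) ≤ a <;> by_cases hj : (j : ℕ) ≤ a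
  · simp only [hi, hj, if_true, coeff_X_pow, Fin.ext_iff]
  · have : i ≠ j := by
      rintro rfl
      exact hj hi
    simp [hi, hj, this]
  · have : i ≠ j := by
      rintro rfl
      exact hi hj
    simp [hi, hj, this]
  · simp only [hi, hj, if_false, coeff_X_pow, Fin.ext_iff]
    congr 1
    simp only [eq_iff_iff]
    omega

lemma cf_add (a b : ℕ) (j : Fin (a + b + 2)) (F G : k[X] × k[X]) :
    cf a b j (F + G) = cf a b j F + cf a b j G := by
  unfold cf
  split_ifs <;> simp

lemma cf_smul (a b : ℕ) (j : Fin (a + b + 2)) (r : k) (F : k[X] × k[X]) :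
    cf a b j (r • F) = r * cf a b j F := by
  unfold cf
  split_ifs <;> simp

noncomputable def cfL (a b : ℕ) (j : Fin (a + b + 2)) : (k[X] × k[X]) →ₗ[k] k where
  toFun := cf a b j
  map_add' := cf_add a b j
  map_smul' := cf_smul a b j

lemma sec_val (a b : ℕ) (j : Fin (a + b + 2)) (t s : k) :
    (sec (k := k) a b j).1.eval t + s * (sec (k := k) a b j).2.eval t =
      t ^ (exS a b j).1 * s ^ (exS a b j).2 := by
  unfold sec exS
  split_ifs
  · simp
  · simp
    ring

lemma sec_dt (a b : ℕ) (j : Fin (a + b + 2)) (t s : k) :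
    (derivative (sec (k := k) a b j).1).eval t + s * (derivative (sec (k := k) a b j).2).eval t =
      ((exS a b j).1 : k) * t ^ ((exS a b j).1 - 1) * s ^ (exS a b j).2 := by
  unfold sec exS
  split_ifs
  · simp [derivative_X_pow]
  · simp [derivative_X_pow]
    ring

lemma sec_ds (a b : ℕ) (j : Fin (a + b + 2)) (t s : k) :
    (sec (k := k) a b j).2.eval t =
      t ^ (exS a b j).1 * (((exS a b j).2 : k) * s ^ ((exS a b j).2 - 1)) := by
  unfold sec exS
  split_ifs
  · simp
  · simp

lemma sec_mem1 (a b : ℕ) (j : Fin (a + b + 2)) : (sec (k := k) a b j).1 ∈ degreeLT k (a + 1) := by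
  unfold sec
  split_ifs with h
  · exact X_pow_mem (by omega)
  · exact Submodule.zero_mem _

lemma sec_mem2 (a b : ℕ) (j : Fin (a + b + 2)) : (sec (k := k) a b j).2 ∈ degreeLT k (b + 1) := by
  unfold sec
  split_ifs with h
  · exact Submodule.zero_mem _
  · exact X_pow_mem (by have := j.isLt; omega)

lemma rank_ge_of_ker {R C : Type*} [Fintype R] [Fintype C] [DecidableEq R] [DecidableEq C]
    (M : Matrix R C k) {e : ℕ} (l : Fin e → ((R → k) →ₗ[k] k))
    (h : ∀ ξ : R → k, Matrix.vecMul ξ M = 0 → (∀ j, l j ξ = 0) → ξ = 0) :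
    Fintype.card R ≤ M.rank + e := by
  have h1 : M.rank = finrank k (LinearMap.range M.vecMulLinear) := by
    have e : M.transpose.mulVecLin = M.vecMulLinear := by
      ext1 ξ
      ext c
      simp
    rw [← Matrix.rank_transpose, Matrix.rank, e]
  have h2 := LinearMap.finrank_range_add_finrank_ker M.vecMulLinear
  rw [finrank_fintype_fun_eq_card] at h2
  have h3 : finrank k (LinearMap.ker M.vecMulLinear) ≤ e := by
    have h4 : Function.Injective ((LinearMap.pi l).comp
        (LinearMap.ker M.vecMulLinear).subtype) := by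
      rw [← LinearMap.ker_eq_bot, LinearMap.ker_eq_bot']
      rintro ⟨ξ, hξ⟩ h5
      ext1
      apply h ξ hξ
      intro j
      exact congrFun h5 j
    have h5 := LinearMap.finrank_le_finrank_of_injective h4
    simpa using h5
  omega

theorem bridge {κ : Type} [Fintype κ] [DecidableEq κ] (a b : ℕ) (m : Fin (a + b + 1) → k)
    (c : (k[X] × k[X]) →ₗ[k] k)
    (hc : ∀ n : Fin (a + b + 1), c (sec a b n.castSucc) = m n * c (sec a b (Fin.last _)))
    (w : κ → Fin 2 → k) {e : ℕ} (o : κ) (l : Fin e → ((k[X] × k[X]) →ₗ[k] k))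
    (h : ∀ F : κ → k[X] × k[X], InK a b c (fun i => w i 0) (fun _ => 1) (fun i => w i 1) F →
      (∀ j, l j (F o) = 0) → F = 0) :
    (a + b + 1) * Fintype.card κ ≤
      (mat (PhiOf (AS (a + b + 1)) (exS a b)) m w).rank + e := by
  classical
  let v : Fin (a + b + 2) → κ → k := fun j i => w i 0 ^ (exS a b j).1 * w i 1 ^ (exS a b j).2
  let B : Fin (a + b + 1) → k[X] × k[X] := fun n =>
    sec a b n.castSucc - m n • sec a b (Fin.last (a + b + 1))
  let FF : (κ × Fin (a + b + 1) → k) → κ → k[X] × k[X] := fun ξ i => ∑ n, ξ (i, n) • B n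
  have hrank := rank_ge_of_ker (mat (PhiOf (AS (a + b + 1)) (exS a b)) m w)
    (fun j : Fin e => (l j).comp (∑ n, (LinearMap.proj (o, n)).smulRight (B n))) ?_
  · rw [Fintype.card_prod, Fintype.card_fin, mul_comm] at hrank
    exact hrank
  intro ξ hξ hl
  rw [vecMul_mat] at hξ
  have h1 : ∀ n b', ∑ i, ξ (i, n) * (v b'.castSucc i - m b' * v (Fin.last _) i) = 0 := by
    intro n b'
    have := congrFun hξ (Sum.inl (Sum.inl (n, b')))
    simp only [Sum.elim_inl, Finset.sum_apply, E, LinearMap.coe_mk, AddHom.coe_mk, val_PhiOf,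
      sum_AS, Pi.zero_apply] at this
    exact this
  have h2 : ∀ s, ∑ i, ξ (i, s) * v (Fin.last _) i = 0 := by
    intro s
    have := congrFun hξ (Sum.inl (Sum.inr s))
    simp only [Sum.elim_inl, Sum.elim_inr, Finset.sum_apply, E, LinearMap.coe_mk,
      AddHom.coe_mk, dotProduct, der_inl_PhiOf, sum_dAS, Pi.zero_apply] at this
    simp only [mul_ite, mul_zero, Finset.sum_ite_eq, Finset.mem_univ, if_true, mul_neg,
      Finset.sum_neg_distrib, neg_eq_zero] at this
    exact this
  have h3 : ∀ j n, ∑ i, ξ (i, n) * v j i = 0 := by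
    intro j n
    refine Fin.lastCases ?_ (fun b' => ?_) j
    · exact h2 n
    · have e1 := h1 n b'
      have e2 := h2 n
      have : ∑ i, ξ (i, n) * v b'.castSucc i =
          ∑ i, ξ (i, n) * (v b'.castSucc i - m b' * v (Fin.last _) i) +
            m b' * ∑ i, ξ (i, n) * v (Fin.last _) i := by
        rw [Finset.mul_sum, ← Finset.sum_add_distrib]
        refine Finset.sum_congr rfl fun i _ => ?_
        ring
      rw [this, e1, e2, mul_zero, add_zero]
  have ht : ∀ i lx, ∑ n, ξ (i, n) * tri (PhiOf (AS (a + b + 1)) (exS a b)) m (w i) lx n = 0 := by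
    intro i lx
    exact congrFun hξ (Sum.inr (i, lx))
  have ht0 : ∀ i, ∑ n, ξ (i, n) * (v n.castSucc i - m n * v (Fin.last _) i) = 0 := by
    intro i
    have := ht i 0
    change ∑ n, ξ (i, n) * val _ _ _ n = 0 at this
    simp only [val_PhiOf, sum_AS] at this
    exact this
  have ht1 : ∀ i, ∑ n, ξ (i, n) * (((derivative (B n).1).eval (w i 0)) +
      w i 1 * ((derivative (B n).2).eval (w i 0))) = 0 := by
    intro i
    have := ht i 1
    change ∑ n, ξ (i, n) * der _ _ _ (Sum.inr 0) n = 0 at this
    simp only [der_inr0_PhiOf, sum_AS] at this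
    rw [← this]
    refine Finset.sum_congr rfl fun n _ => ?_
    rw [← sec_dt a b n.castSucc (w i 0) (w i 1), ← sec_dt a b (Fin.last _) (w i 0) (w i 1)]
    simp only [B, Prod.fst_sub, Prod.snd_sub, Prod.smul_fst, Prod.smul_snd, derivative_sub,
      derivative_smul, eval_sub, eval_smul, smul_eq_mul]
    ring
  have ht2 : ∀ i, ∑ n, ξ (i, n) * (B n).2.eval (w i 0) = 0 := by
    intro i
    have := ht i 2
    change ∑ n, ξ (i, n) * der _ _ _ (Sum.inr 1) n = 0 at this
    simp only [der_inr1_PhiOf, sum_AS] at this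
    rw [← this]
    refine Finset.sum_congr rfl fun n _ => ?_
    rw [← sec_ds a b n.castSucc (w i 0) (w i 1), ← sec_ds a b (Fin.last _) (w i 0) (w i 1)]
    simp only [B, Prod.snd_sub, Prod.smul_snd, eval_sub, eval_smul, smul_eq_mul]
  have hBv : ∀ i n, (B n).1.eval (w i 0) + w i 1 * (B n).2.eval (w i 0) =
      v n.castSucc i - m n * v (Fin.last _) i := by
    intro i n
    simp only [v, ← sec_val a b _ (w i 0) (w i 1), B, Prod.fst_sub, Prod.snd_sub,
      Prod.smul_fst, Prod.smul_snd, eval_sub, eval_smul, smul_eq_mul]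
    ring
  have key : FF ξ = 0 := by
    apply h
    · refine ⟨fun i => ?_, fun i => ?_, fun i => ?_, fun i => ?_, fun i => ?_, fun i => ?_,
        ?_, ?_⟩
      · simp only [FF, Prod.fst_sum, Prod.smul_fst]
        refine Submodule.sum_mem _ fun n _ => Submodule.smul_mem _ _ ?_
        exact Submodule.sub_mem _ (sec_mem1 _ _ _) (Submodule.smul_mem _ _ (sec_mem1 _ _ _))
      · simp only [FF, Prod.snd_sum, Prod.smul_snd]
        refine Submodule.sum_mem _ fun n _ => Submodule.smul_mem _ _ ?_
        exact Submodule.sub_mem _ (sec_mem2 _ _ _) (Submodule.smul_mem _ _ (sec_mem2 _ _ _))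
      · simp only [FF, map_sum, map_smul, B, map_sub, hc, smul_eq_mul, sub_self, mul_zero,
          Finset.sum_const_zero]
      · have e0 := ht0 i
        have e2 := ht2 i
        simp only [FF, Prod.fst_sum, Prod.smul_fst, eval_finsetSum, eval_smul, smul_eq_mul]
        rw [← e0, ← sub_eq_zero, ← Finset.sum_sub_distrib]
        rw [← mul_zero (- w i 1), ← e2, Finset.mul_sum]
        refine Finset.sum_congr rfl fun n _ => ?_
        rw [← hBv]
        ring
      · simp only [FF, Prod.snd_sum, Prod.smul_snd, eval_finsetSum, eval_smul, smul_eq_mul]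
        exact ht2 i
      · simp only [FF, Prod.fst_sum, Prod.smul_fst, Prod.snd_sum, Prod.smul_snd,
          derivative_sum, derivative_smul, eval_finsetSum, eval_smul, smul_eq_mul, one_mul]
        rw [← ht1 i, Finset.mul_sum, ← Finset.sum_add_distrib]
        refine Finset.sum_congr rfl fun n _ => ?_
        ring
      · intro P hP
        simp only [one_mul, FF, Finset.smul_sum, smul_smul]
        rw [Finset.sum_comm]
        refine Finset.sum_eq_zero fun n _ => ?_
        rw [← Finset.sum_smul]
        convert zero_smul k (B n)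
        simp only [eval_of_mem hP, Finset.sum_mul]
        rw [Finset.sum_comm]
        refine Finset.sum_eq_zero fun j hj => ?_
        have hj' : j ≤ a := by simp at hj; omega
        have := h3 ⟨j, by omega⟩ n
        rw [← mul_zero (P.coeff j), ← this, Finset.mul_sum]
        refine Finset.sum_congr rfl fun i _ => ?_
        simp only [v, exS, hj', if_true, pow_zero, mul_one]
        ring
      · intro P hP
        simp only [FF, Finset.smul_sum, smul_smul]
        rw [Finset.sum_comm]
        refine Finset.sum_eq_zero fun n _ => ?_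
        rw [← Finset.sum_smul]
        convert zero_smul k (B n)
        simp only [eval_of_mem hP, Finset.mul_sum, Finset.sum_mul]
        rw [Finset.sum_comm]
        refine Finset.sum_eq_zero fun j hj => ?_
        have hj' : j ≤ b := by simp at hj; omega
        have := h3 ⟨a + 1 + j, by omega⟩ n
        rw [← mul_zero (P.coeff j), ← this, Finset.mul_sum]
        refine Finset.sum_congr rfl fun i _ => ?_
        have h5 : ¬ (a + 1 + j ≤ a) := by omega
        simp only [v, exS, h5, if_false, pow_one, Nat.add_sub_cancel_left]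
        ring
    · intro j
      have := hl j
      simp only [LinearMap.comp_apply, LinearMap.sum_apply, LinearMap.smulRight_apply,
        LinearMap.proj_apply] at this
      exact this
  ext ⟨i, n⟩
  have h6 := congrArg (cfL a b n.castSucc) (congrFun key i)
  simp only [FF, Pi.zero_apply, map_zero, map_sum, map_smul, smul_eq_mul] at h6
  have h7 : ∀ n', cfL a b n.castSucc (B n') = if n' = n then 1 else 0 := by
    intro n'
    simp only [B, map_sub, map_smul]
    change cf a b _ _ - m n' • cf a b _ _ = _
    rw [cf_sec, cf_sec]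
    have h8 : n.castSucc ≠ Fin.last (a + b + 1) := (Fin.castSucc_lt_last n).ne
    rw [if_neg h8, smul_zero, sub_zero]
    by_cases hn : n' = n
    · subst hn; simp
    · rw [if_neg hn, if_neg]
      intro h9
      exact hn (Fin.castSucc_injective _ h9).symm
  simp only [h7, mul_ite, mul_one, mul_zero, Finset.sum_ite_eq', Finset.mem_univ, if_true] at h6
  exact h6

end Pool.Agent.W507.Scroll
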