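import Mathlib
import Pool.Agent.W507.Scr.Bridge

/-!
# The rank of the tangent matrices of projected scrolls
-/

set_option autoImplicit false

namespace Pool.Agent.W507.Scroll

open Polynomial Module

variable {k : Type*} [Field k]

/-- change of the fibre coordinate -/
noncomputable def shear (k : Type*) [Field k] : (k[X] × k[X]) →ₗ[k] (k[X] × k[X]) :=
  LinearMap.prod (LinearMap.fst k k[X] k[X]) (LinearMap.snd k k[X] k[X] + LinearMap.fst k k[X] k[X])

lemma shear_apply (F : k[X] × k[X]) : shear k F = (F.1, F.2 + F.1) := rfl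

lemma shear_inj {F : k[X] × k[X]} (h : shear k F = 0) : F = 0 := by
  rw [shear_apply, Prod.mk_eq_zero] at h
  obtain ⟨h1, h2⟩ := h
  rw [h1, add_zero] at h2
  exact Prod.ext h1 h2

lemma std_of {κ : Type} [Fintype κ] {a b : ℕ} (hab : a ≤ b) {c : (k[X] × k[X]) →ₗ[k] k}
    {t α β : κ → k} (hαβ : ∀ i, α i + β i ≠ 0) {F : κ → k[X] × k[X]}
    (h : InK a b (c.comp (shear k)) t (fun _ => 1) (fun i => β i / (α i + β i)) F) :
    InK a b c t α β (fun i => (α i + β i)⁻¹ • shear k (F i)) := by
  have hr1 : ∀ P ∈ degreeLT k (a + 1), ∑ i, P.eval (t i) • shear k (F i) = 0 := by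
    intro P hP
    have := congrArg (shear k) (h.rel1 P hP)
    rw [map_sum, map_zero] at this
    simpa using this
  have hr2 : ∀ P ∈ degreeLT k (b + 1), ∑ i, (β i / (α i + β i) * P.eval (t i)) •
      shear k (F i) = 0 := by
    intro P hP
    have := congrArg (shear k) (h.rel2 P hP)
    rw [map_sum, map_zero] at this
    simpa using this
  refine ⟨fun i => ?_, fun i => ?_, fun i => ?_, fun i => ?_, fun i => ?_, fun i => ?_, ?_, ?_⟩
  · exact Submodule.smul_mem _ _ (h.deg1 i)
  · refine Submodule.smul_mem _ _ (Submodule.add_mem _ (h.deg2 i) ?_)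
    exact degreeLT_mono (by omega) (h.deg1 i)
  · rw [map_smul]
    have := h.cen i
    rw [LinearMap.comp_apply] at this
    rw [this, smul_zero]
  · simp [shear_apply, h.ev1 i]
  · simp [shear_apply, h.ev1 i, h.ev2 i]
  · have h1 := h.tan i
    have h2 := hαβ i
    simp only [shear_apply, Prod.smul_fst, Prod.smul_snd, derivative_smul, derivative_add,
      eval_smul, eval_add, smul_eq_mul]
    field_simp at h1 ⊢
    linear_combination h1
  · intro P hP
    have h1 := hr1 P hP
    have h2 := hr2 P (degreeLT_mono (by omega) hP)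
    have : ∑ i, (α i * P.eval (t i)) • (α i + β i)⁻¹ • shear k (F i) =
        ∑ i, P.eval (t i) • shear k (F i) -
          ∑ i, (β i / (α i + β i) * P.eval (t i)) • shear k (F i) := by
      rw [← Finset.sum_sub_distrib]
      refine Finset.sum_congr rfl fun i _ => ?_
      rw [smul_smul, ← sub_smul]
      congr 1
      have h3 := hαβ i
      field_simp
      ring
    rw [this, h1, h2, sub_zero]
  · intro P hP
    rw [← hr2 P hP]
    refine Finset.sum_congr rfl fun i _ => ?_
    rw [smul_smul]
    congr 1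
    have h3 := hαβ i
    field_simp

/-- transport along a bijection of the index sets -/
lemma InK.reindex {κ κ' : Type} [Fintype κ] [Fintype κ'] (σ : κ ≃ κ') {a b : ℕ}
    {c : (k[X] × k[X]) →ₗ[k] k} {t α β : κ → k} {F : κ' → k[X] × k[X]}
    (h : InK a b c (t ∘ σ.symm) (α ∘ σ.symm) (β ∘ σ.symm) F) : InK a b c t α β (F ∘ σ) := by
  refine ⟨fun i => h.deg1 _, fun i => h.deg2 _, fun i => h.cen _, fun i => ?_, fun i => ?_,
    fun i => ?_, ?_, ?_⟩
  · simpa using h.ev1 (σ i)
  · simpa using h.ev2 (σ i)
  · simpa using h.tan (σ i)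
  · intro P hP
    rw [← h.rel1 P hP, ← Equiv.sum_comp σ]
    simp
  · intro P hP
    rw [← h.rel2 P hP, ← Equiv.sum_comp σ]
    simp

lemma InK.extend {κ : Type} [Fintype κ] {a b : ℕ} {c : (k[X] × k[X]) →ₗ[k] k} {t α β : κ → k}
    {t0 α0 β0 : k} {F : κ → k[X] × k[X]} (h : InK a b c t α β F) :
    InK a b c (ext t0 t) (ext α0 α) (ext β0 β) (fun o => o.elim 0 F) := by
  refine ⟨fun i => ?_, fun i => ?_, fun i => ?_, fun i => ?_, fun i => ?_, fun i => ?_, ?_, ?_⟩
  · cases i
    · exact Submodule.zero_mem _
    · exact h.deg1 _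
  · cases i
    · exact Submodule.zero_mem _
    · exact h.deg2 _
  · cases i
    · exact map_zero _
    · exact h.cen _
  · cases i
    · simp
    · exact h.ev1 _
  · cases i
    · simp
    · exact h.ev2 _
  · cases i
    · simp
    · exact h.tan _
  · intro P hP
    rw [Fintype.sum_option]
    simpa [ext] using h.rel1 P hP
  · intro P hP
    rw [Fintype.sum_option]
    simpa [ext] using h.rel2 P hP

theorem scroll_rank {a b e : ℕ} (hab : a ≤ b) (h : Good k a b e) :
    ∃ m : Fin (a + b + 1) → k,
      (∃ w1 : Fin (a + b + 5) → Fin 2 → k, (a + b + 1) * (a + b + 5) ≤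
        (mat (PhiOf (AS (a + b + 1)) (exS a b)) m w1).rank) ∧
      (∃ w2 : Fin (a + b + 6) → Fin 2 → k, (a + b + 1) * (a + b + 6) ≤
        (mat (PhiOf (AS (a + b + 1)) (exS a b)) m w2).rank + e) := by
  classical
  obtain ⟨ι, _, t, α, β, t0, α0, β0, c, hcard, hαβ, hαβ0, hc1, hc2, ⟨l, hl⟩, -⟩ := h
  have hαβ' : ∀ o : Option ι, ext α0 α o + ext β0 β o ≠ 0 := by
    intro o
    cases o
    · exact hαβ0
    · exact hαβ _
  let c' := c.comp (shear k)
  have hlast : c' (sec a b (Fin.last (a + b + 1))) ≠ 0 := by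
    have e1 : sec (k := k) a b (Fin.last (a + b + 1)) = (0, X ^ b) := by
      unfold sec
      rw [if_neg (by simp)]
      simp only [Fin.val_last]
      congr 2
      omega
    rw [e1]
    change c (shear k (0, X ^ b)) ≠ 0
    rw [shear_apply]
    simpa using hc2
  let m : Fin (a + b + 1) → k := fun n => c' (sec a b n.castSucc) / c' (sec a b (Fin.last _))
  have hm : ∀ n : Fin (a + b + 1), c' (sec a b n.castSucc) = m n * c' (sec a b (Fin.last _)) := by
    intro n
    simp only [m]
    field_simp
  -- the condition in the standard chart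
  have hl' : ∀ F : Option ι → k[X] × k[X], InK a b c' (ext t0 t) (fun _ => 1)
      (fun o => ext β0 β o / (ext α0 α o + ext β0 β o)) F →
      (∀ j, (l j).comp (shear k) (F none) = 0) → F = 0 := by
    intro F hF hj
    have h1 := hl _ (std_of hab hαβ' hF) (fun j => by
      rw [map_smul]
      have := hj j
      rw [LinearMap.comp_apply] at this
      rw [this, smul_zero])
    ext1 o
    have h2 := congrFun h1 o
    exact shear_inj ((smul_eq_zero.1 h2).resolve_left (inv_ne_zero (hαβ' o)))
  refine ⟨m, ?_, ?_⟩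
  · let σ : ι ≃ Fin (a + b + 5) := (Fintype.equivFin ι).trans (finCongr hcard)
    have := bridge a b m c' hm (κ := Fin (a + b + 5)) (fun i => ![t (σ.symm i),
      β (σ.symm i) / (α (σ.symm i) + β (σ.symm i))]) (e := 0) ⟨0, by omega⟩ Fin.elim0 (by
        intro F hF _
        have h1 : InK a b c' t (fun _ => 1) (fun i => β i / (α i + β i)) (F ∘ σ) :=
          InK.reindex σ hF
        have h2 := hl' (fun o => o.elim 0 (F ∘ σ)) (by
          have h3 := InK.extend (t0 := t0) (α0 := 1) (β0 := β0 / (α0 + β0)) h1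
          convert h3 using 1
          · ext o; cases o <;> rfl
          · ext o; cases o <;> rfl) (fun j => by simp)
        ext1 i
        have h4 := congrFun h2 (some (σ.symm i))
        simpa using h4)
    rw [Fintype.card_fin] at this
    exact ⟨fun i => ![t (σ.symm i), β (σ.symm i) / (α (σ.symm i) + β (σ.symm i))], this⟩
  · have hcard' : Fintype.card (Option ι) = a + b + 6 := by
      rw [Fintype.card_option, hcard]
    let σ : Option ι ≃ Fin (a + b + 6) := (Fintype.equivFin (Option ι)).trans (finCongr hcard')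
    have := bridge a b m c' hm (κ := Fin (a + b + 6)) (fun i => ![ext t0 t (σ.symm i),
      ext β0 β (σ.symm i) / (ext α0 α (σ.symm i) + ext β0 β (σ.symm i))]) (e := e) (σ none)
      (fun j => (l j).comp (shear k)) (by
        intro F hF hj
        have h1 : InK a b c' (ext t0 t) (fun _ => 1)
            (fun o => ext β0 β o / (ext α0 α o + ext β0 β o)) (F ∘ σ) := InK.reindex σ hF
        have h2 := hl' _ h1 hj
        ext1 i
        have h4 := congrFun h2 (σ.symm i)
        simpa using h4)
    rw [Fintype.card_fin] at this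
    exact ⟨fun i => ![ext t0 t (σ.symm i),
      ext β0 β (σ.symm i) / (ext α0 α (σ.symm i) + ext β0 β (σ.symm i))], this⟩

end Pool.Agent.W507.Scroll
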