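import Mathlib
import Pool.Agent.W507.Scr.Std
import Pool.Agent.W507.Scr.S34

/-!
# The start of the induction
-/

set_option autoImplicit false

namespace Pool.Agent.W507

open MvPolynomial Module

variable {k : Type*} [Field k] {N μ K : ℕ}

/-- the rank of the tangent matrix from a certificate -/
theorem fam_rank [CharZero k] {Q R p : ℕ} [Fact (1 < p)]
    (A : Fin N → Fin K → MvPolynomial (Fin μ) k) (ex : Fin K → ℕ × ℕ)
    (m0 : Fin μ → k)
    (a0 : Fin N → Fin K → ℤ) (ha0 : ∀ b j, eval m0 (A b j) = (a0 b j : k))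
    (a1 : Fin μ → Fin N → Fin K → ℤ) (ha1 : ∀ s b j, eval m0 (pderiv s (A b j)) = (a1 s b j : k))
    (xys pts : List (ℕ × ℕ)) (xs : List ℕ) (hpts : pts.length = Q) (hxs : xs.length = R)
    (hchk : Cert.chkAll p N μ R pts xs 0 = true) (hok : ptsOK p ex a0 a1 xys pts Q)
    (s r : ℕ) (hs : s ≤ Q) (hr : r ≤ R) (hr' : r ≤ N * s) :
    r ≤ (mat (PhiOf A ex) m0 (fun i : Fin s =>
      ![((xys.getD i (0, 0)).1 : k), ((xys.getD i (0, 0)).2 : k)])).rank := by
  classical
  let w : ℕ → Fin 2 → k := fun i =>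
    ![((xys.getD i (0, 0)).1 : k), ((xys.getD i (0, 0)).2 : k)]
  have hv : ∀ i b, val (PhiOf A ex) m0 (w i) b = (vzf ex a0 (xys.getD i (0, 0)) b : k) := by
    intro i b
    rw [val_PhiOf, vzf]
    push_cast
    simp only [ha0]
    rfl
  have hd : ∀ i s b, der (PhiOf A ex) m0 (w i) (Sum.inl s) b =
      (vzf ex (a1 s) (xys.getD i (0, 0)) b : k) := by
    intro i s b
    rw [der_inl_PhiOf, vzf]
    push_cast
    simp only [ha1]
    rfl
  have ht : ∀ i l b, tri (PhiOf A ex) m0 (w i) l b =
      (tzf ex a0 (xys.getD i (0, 0)) l b : k) := by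
    intro i l b
    fin_cases l
    · change val (PhiOf A ex) m0 (w i) b = _
      rw [hv]
      rfl
    · change der (PhiOf A ex) m0 (w i) (Sum.inr 0) b = ((∑ j, _ : ℤ) : k)
      rw [der_inr0_PhiOf]
      push_cast
      simp only [ha0]
      rfl
    · change der (PhiOf A ex) m0 (w i) (Sum.inr 1) b = ((∑ j, _ : ℤ) : k)
      rw [der_inr1_PhiOf]
      push_cast
      simp only [ha0]
      rfl
  exact rank_of_cert (PhiOf A ex) m0 w hchk hxs hpts
    (fun i b => vzf ex a0 (xys.getD i (0, 0)) b) (fun i _ b => hv i b)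
    (fun i hi b => zmod_of_mod (hok ⟨i, hi⟩ b).1)
    (fun i s b => vzf ex (a1 s) (xys.getD i (0, 0)) b) (fun i _ s b => hd i s b)
    (fun i hi s b => zmod_of_mod ((hok ⟨i, hi⟩ b).2.1 s))
    (fun i l b => tzf ex a0 (xys.getD i (0, 0)) l b) (fun i _ l b => ht i l b)
    (fun i hi l b => zmod_of_mod ((hok ⟨i, hi⟩ b).2.2 l)) s hs r hr hr'

end Pool.Agent.W507

namespace Pool.Agent.W507.Scroll

open Polynomial Module

variable {k : Type*} [Field k]

lemma sum_range_sec (a b : ℕ) (g : ℕ → k[X] × k[X]) :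
    ∑ j : Fin (a + b + 2), g j = ∑ j ∈ Finset.range (a + 1), g j +
      ∑ j ∈ Finset.range (b + 1), g (a + 1 + j) := by
  rw [Fin.sum_univ_eq_sum_range (fun j => g j) (a + b + 2)]
  have : a + b + 2 = (a + 1) + (b + 1) := by omega
  rw [this, Finset.sum_range_add]

lemma expand {a b : ℕ} {F : k[X] × k[X]} (h1 : F.1 ∈ degreeLT k (a + 1))
    (h2 : F.2 ∈ degreeLT k (b + 1)) : F = ∑ j, cf a b j F • sec a b j := by
  have e : ∀ (n : ℕ) (P : k[X]), P ∈ degreeLT k (n + 1) →
      P = ∑ j ∈ Finset.range (n + 1), P.coeff j • X ^ j := by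
    intro n P hP
    have hd : P.natDegree < n + 1 := by
      rw [mem_degreeLT] at hP
      by_cases h0 : P = 0
      · simp [h0]
      · rw [degree_eq_natDegree h0] at hP
        exact_mod_cast hP
    conv_lhs => rw [P.as_sum_range' (n + 1) hd]
    refine Finset.sum_congr rfl fun j _ => ?_
    rw [smul_X_eq_monomial]
  have h3 := sum_range_sec a b (fun j => if j ≤ a then F.1.coeff j • (X ^ j, (0 : k[X]))
    else F.2.coeff (j - (a + 1)) • ((0 : k[X]), X ^ (j - (a + 1))))
  have h4 : ∑ j, cf a b j F • sec a b j = ∑ j : Fin (a + b + 2),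
      (fun j : ℕ => if j ≤ a then F.1.coeff j • (X ^ j, (0 : k[X]))
        else F.2.coeff (j - (a + 1)) • ((0 : k[X]), X ^ (j - (a + 1)))) j := by
    refine Finset.sum_congr rfl fun j _ => ?_
    unfold cf sec
    by_cases hj : (j : ℕ) ≤ a
    · simp [hj]
    · simp [hj]
  rw [h4, h3]
  have h5 : ∑ j ∈ Finset.range (a + 1), (if j ≤ a then F.1.coeff j • (X ^ j, (0 : k[X]))
      else F.2.coeff (j - (a + 1)) • ((0 : k[X]), X ^ (j - (a + 1)))) = (F.1, 0) := by
    have : ∀ j ∈ Finset.range (a + 1), (if j ≤ a then F.1.coeff j • (X ^ j, (0 : k[X]))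
      else F.2.coeff (j - (a + 1)) • ((0 : k[X]), X ^ (j - (a + 1)))) =
        F.1.coeff j • (X ^ j, (0 : k[X])) := by
      intro j hj
      rw [if_pos (by simp at hj; omega)]
    rw [Finset.sum_congr rfl this]
    ext1
    · simp only [Prod.fst_sum, Prod.smul_fst]
      exact (e a F.1 h1).symm
    · simp [Prod.snd_sum]
  have h6 : ∑ j ∈ Finset.range (b + 1), (if a + 1 + j ≤ a then
      F.1.coeff (a + 1 + j) • (X ^ (a + 1 + j), (0 : k[X]))
      else F.2.coeff (a + 1 + j - (a + 1)) • ((0 : k[X]), X ^ (a + 1 + j - (a + 1)))) =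
        (0, F.2) := by
    have : ∀ j ∈ Finset.range (b + 1), (if a + 1 + j ≤ a then
      F.1.coeff (a + 1 + j) • (X ^ (a + 1 + j), (0 : k[X]))
      else F.2.coeff (a + 1 + j - (a + 1)) • ((0 : k[X]), X ^ (a + 1 + j - (a + 1)))) =
        F.2.coeff j • ((0 : k[X]), X ^ j) := by
      intro j _
      rw [if_neg (by omega), Nat.add_sub_cancel_left]
    rw [Finset.sum_congr rfl this]
    ext1
    · simp [Prod.fst_sum]
    · simp only [Prod.snd_sum, Prod.smul_snd]
      exact (e b F.2 h2).symm
  rw [h5, h6]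
  simp

/-- the converse of `bridge`: full rank implies that the linear system is trivial -/
theorem unbridge {κ : Type} [Fintype κ] [DecidableEq κ] (a b : ℕ) (m : Fin (a + b + 1) → k)
    (c : (k[X] × k[X]) →ₗ[k] k)
    (hc : ∀ n : Fin (a + b + 1), c (sec a b n.castSucc) = m n * c (sec a b (Fin.last _)))
    (hc0 : c (sec a b (Fin.last (a + b + 1))) ≠ 0)
    (w : κ → Fin 2 → k)
    (hr : (a + b + 1) * Fintype.card κ ≤
      (mat (PhiOf (AS (a + b + 1)) (exS a b)) m w).rank)
    (F : κ → k[X] × k[X])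
    (h : InK a b c (fun i => w i 0) (fun _ => 1) (fun i => w i 1) F) : F = 0 := by
  classical
  let v : Fin (a + b + 2) → κ → k := fun j i => w i 0 ^ (exS a b j).1 * w i 1 ^ (exS a b j).2
  let B : Fin (a + b + 1) → k[X] × k[X] := fun n =>
    sec a b n.castSucc - m n • sec a b (Fin.last (a + b + 1))
  let ξ : κ × Fin (a + b + 1) → k := fun p => cf a b p.2.castSucc (F p.1)
  have hF : ∀ i, F i = ∑ n, ξ (i, n) • B n := by
    intro i
    have h1 := expand (h.deg1 i) (h.deg2 i)
    have h2 := h.cen i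
    rw [h1, map_sum, Fin.sum_univ_castSucc] at h2
    simp only [map_smul, smul_eq_mul, hc] at h2
    have h3 : cf a b (Fin.last (a + b + 1)) (F i) = - ∑ n, ξ (i, n) * m n := by
      have h4 : (cf a b (Fin.last (a + b + 1)) (F i) + ∑ n, ξ (i, n) * m n) *
          c (sec a b (Fin.last (a + b + 1))) = 0 := by
        rw [add_mul, Finset.sum_mul, ← h2, add_comm]
        congr 1
        refine Finset.sum_congr rfl fun n _ => ?_
        simp only [ξ]
        ring
      have h5 := (mul_eq_zero.1 h4).resolve_right hc0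
      linear_combination h5
    conv_lhs => rw [h1]
    rw [Fin.sum_univ_castSucc, h3]
    simp only [B, smul_sub, smul_smul, Finset.sum_sub_distrib, neg_smul, Finset.sum_smul]
    rw [sub_eq_add_neg]
  have hBv : ∀ i n, (B n).1.eval (w i 0) + w i 1 * (B n).2.eval (w i 0) =
      v n.castSucc i - m n * v (Fin.last _) i := by
    intro i n
    simp only [v, ← sec_val a b _ (w i 0) (w i 1), B, Prod.fst_sub, Prod.snd_sub,
      Prod.smul_fst, Prod.smul_snd, eval_sub, eval_smul, smul_eq_mul]
    ring
  have hrel : ∀ j n, ∑ i, ξ (i, n) * v j i = 0 := by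
    intro j n
    by_cases hj : (j : ℕ) ≤ a
    · have h1 := congrArg (cfL a b n.castSucc) (h.rel1 (X ^ (j : ℕ)) (X_pow_mem (by omega)))
      rw [map_sum, map_zero] at h1
      rw [← h1]
      refine Finset.sum_congr rfl fun i _ => ?_
      rw [map_smul]
      simp only [v, exS, hj, if_true, pow_zero, one_mul, eval_pow, eval_X, smul_eq_mul, mul_one]
      exact mul_comm _ _
    · have h1 := congrArg (cfL a b n.castSucc) (h.rel2 (X ^ ((j : ℕ) - (a + 1)))
        (X_pow_mem (by have := j.isLt; omega)))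
      rw [map_sum, map_zero] at h1
      rw [← h1]
      refine Finset.sum_congr rfl fun i _ => ?_
      rw [map_smul]
      simp only [v, exS, hj, if_false, pow_one, eval_pow, eval_X, smul_eq_mul]
      rw [mul_comm (w i 1)]
      exact mul_comm _ _
  have hξ : Matrix.vecMul ξ (mat (PhiOf (AS (a + b + 1)) (exS a b)) m w) = 0 := by
    rw [vecMul_mat]
    ext x
    rcases x with (⟨n, b'⟩ | s) | ⟨i, lx⟩
    · simp only [Sum.elim_inl, Finset.sum_apply, E, LinearMap.coe_mk, AddHom.coe_mk, val_PhiOf,
        sum_AS, Pi.zero_apply]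
      have h1 := hrel b'.castSucc n
      have h2 := hrel (Fin.last _) n
      have : ∑ i, ξ (i, n) * (v b'.castSucc i - m b' * v (Fin.last _) i) =
          ∑ i, ξ (i, n) * v b'.castSucc i - m b' * ∑ i, ξ (i, n) * v (Fin.last _) i := by
        rw [Finset.mul_sum, ← Finset.sum_sub_distrib]
        refine Finset.sum_congr rfl fun i _ => ?_
        ring
      refine this.trans ?_
      rw [h1, h2, mul_zero, sub_zero]
    · simp only [Sum.elim_inl, Sum.elim_inr, Finset.sum_apply, E, LinearMap.coe_mk,
        AddHom.coe_mk, dotProduct, der_inl_PhiOf, sum_dAS, Pi.zero_apply]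
      simp only [mul_ite, mul_zero, Finset.sum_ite_eq, Finset.mem_univ, if_true, mul_neg,
        Finset.sum_neg_distrib, neg_eq_zero]
      exact hrel (Fin.last _) s
    · simp only [Sum.elim_inr, Pi.zero_apply]
      have e2 : ∑ n, ξ (i, n) * (B n).2.eval (w i 0) = 0 := by
        have := h.ev2 i
        rw [hF i] at this
        simpa [Prod.snd_sum, eval_finsetSum] using this
      have e1 : ∑ n, ξ (i, n) * (B n).1.eval (w i 0) = 0 := by
        have := h.ev1 i
        rw [hF i] at this
        simpa [Prod.fst_sum, eval_finsetSum] using this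
      have e3 : ∑ n, ξ (i, n) * ((derivative (B n).1).eval (w i 0) +
          w i 1 * (derivative (B n).2).eval (w i 0)) = 0 := by
        have := h.tan i
        rw [hF i] at this
        simp only [Prod.fst_sum, Prod.snd_sum, Prod.smul_fst, Prod.smul_snd, derivative_sum,
          derivative_smul, eval_finsetSum, eval_smul, smul_eq_mul, one_mul] at this
        rw [← this, Finset.mul_sum, ← Finset.sum_add_distrib]
        refine Finset.sum_congr rfl fun n _ => ?_
        ring
      fin_cases lx
      · change ∑ n, ξ (i, n) * val _ _ _ n = 0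
        simp only [val_PhiOf, sum_AS]
        have e4 : ∑ n, ξ (i, n) * ((B n).1.eval (w i 0) + w i 1 * (B n).2.eval (w i 0)) = 0 := by
          rw [← add_zero (0 : k)]
          nth_rewrite 1 [← e1]
          rw [← mul_zero (w i 1), ← e2, Finset.mul_sum, ← Finset.sum_add_distrib]
          refine Finset.sum_congr rfl fun n _ => ?_
          ring
        simp only [hBv] at e4
        exact e4
      · change ∑ n, ξ (i, n) * der _ _ _ (Sum.inr 0) n = 0
        simp only [der_inr0_PhiOf, sum_AS]
        rw [← e3]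
        refine Finset.sum_congr rfl fun n _ => ?_
        rw [← sec_dt a b n.castSucc (w i 0) (w i 1), ← sec_dt a b (Fin.last _) (w i 0) (w i 1)]
        simp only [B, Prod.fst_sub, Prod.snd_sub, Prod.smul_fst, Prod.smul_snd, derivative_sub,
          derivative_smul, eval_sub, eval_smul, smul_eq_mul]
        ring
      · change ∑ n, ξ (i, n) * der _ _ _ (Sum.inr 1) n = 0
        simp only [der_inr1_PhiOf, sum_AS]
        rw [← e2]
        refine Finset.sum_congr rfl fun n _ => ?_
        rw [← sec_ds a b n.castSucc (w i 0) (w i 1), ← sec_ds a b (Fin.last _) (w i 0) (w i 1)]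
        simp only [B, Prod.snd_sub, Prod.smul_snd, eval_sub, eval_smul, smul_eq_mul]
  have hξ0 : ξ = 0 := by
    have hli : LinearIndependent k (mat (PhiOf (AS (a + b + 1)) (exS a b)) m w).row := by
      rw [linearIndependent_iff_card_le_finrank_span, Set.finrank,
        ← Matrix.rank_eq_finrank_span_row, Fintype.card_prod, Fintype.card_fin, mul_comm]
      exact hr
    rw [Fintype.linearIndependent_iff] at hli
    ext p
    refine hli ξ ?_ p
    ext x
    have := congrFun hξ x
    simpa [Matrix.vecMul, dotProduct, Finset.sum_apply, Matrix.row] using this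
  ext1 i
  rw [hF i]
  simp [hξ0]

end Pool.Agent.W507.Scroll
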