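import Mathlib
import Pool.Agent.W507.Scr.Base

/-!
# The start of the induction: the case of degree seven
-/

set_option autoImplicit false

namespace Pool.Agent.W507.Scroll

open Polynomial Module

variable {k : Type*} [Field k]

lemma det_ne_of_mod {n p : ℕ} [Fact (1 < p)] (A B : Matrix (Fin n) (Fin n) ℤ)
    (h : ∀ r t, (∑ i, A r i * B i t - (if r = t then 1 else 0)) % (p : ℤ) = 0) : A.det ≠ 0 := by
  have h1 : (A * B).map (Int.castRingHom (ZMod p)) = 1 := by
    ext r t
    have h2 := (ZMod.intCast_zmod_eq_zero_iff_dvd _ _).2 (Int.dvd_of_emod_eq_zero (h r t))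
    rw [Matrix.map_apply, Matrix.mul_apply, Matrix.one_apply]
    push_cast at h2
    rw [sub_eq_zero] at h2
    rw [eq_intCast]
    push_cast
    rw [h2]
  intro h0
  have h2 : (Int.castRingHom (ZMod p)) (A * B).det = 0 := by
    rw [Matrix.det_mul, h0, zero_mul, map_zero]
  rw [RingHom.map_det, RingHom.mapMatrix_apply, h1, Matrix.det_one] at h2
  exact one_ne_zero h2

/-- the square system with polynomial entries -/
noncomputable def zpoly (t s f : Fin 12 → k) (r i : Fin 12) : k[X] :=
  if (r : ℕ) < 4 then (C (t i) - X) ^ 2 * C (t i) ^ (r : ℕ)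
  else if (r : ℕ) < 9 then (C (t i) - X) ^ 2 * C (s i) * C (t i) ^ ((r : ℕ) - 4)
  else if (r : ℕ) = 9 then C (t i) - X
  else if (r : ℕ) = 10 then C (s i) * (C (t i) - X)
  else C (f i)

lemma zpoly_eval (f : Fin 12 → ℤ) (r i : Fin 12) :
    (zpoly (k := k) (fun i => (S34.tz i : k)) (fun i => (S34.sz i : k)) (fun i => (f i : k)) r
      i).eval (S34.tau : k) = ((S34.zrow S34.tau f r i : ℤ) : k) := by
  unfold zpoly S34.zrow
  split_ifs <;> simp

lemma zpoly_det_ne [CharZero k] (f : Fin 12 → ℤ)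
    (hdet : (Matrix.of (S34.zrow S34.tau f)).det ≠ 0) :
    (Matrix.of (zpoly (k := k) (fun i => (S34.tz i : k)) (fun i => (S34.sz i : k))
      (fun i => (f i : k)))).det ≠ 0 := by
  intro h0
  have h1 : ((Matrix.of (zpoly (k := k) (fun i => (S34.tz i : k)) (fun i => (S34.sz i : k))
      (fun i => (f i : k)))).det).eval (S34.tau : k) = 0 := by rw [h0, eval_zero]
  rw [← coe_evalRingHom, RingHom.map_det] at h1
  have h2 : (evalRingHom (S34.tau : k)).mapMatrix (Matrix.of (zpoly (k := k)
      (fun i => (S34.tz i : k)) (fun i => (S34.sz i : k)) (fun i => (f i : k)))) =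
        (Matrix.of (S34.zrow S34.tau f)).map (Int.castRingHom k) := by
    ext r i
    exact zpoly_eval f r i
  rw [h2, ← RingHom.mapMatrix_apply, ← RingHom.map_det, eq_intCast] at h1
  exact hdet (Int.cast_eq_zero.1 h1)

theorem ZC_gen (t s g : Fin 12 → k) (hD : (Matrix.of (zpoly t s g)).det ≠ 0) :
    ∃ B : Finset k, ∀ τ ∉ B, ∀ y : Fin 12 → k,
      (∀ P ∈ degreeLT k 4, ∑ i, y i * P.eval (t i) = 0) →
      (∀ Q ∈ degreeLT k 5, ∑ i, y i * s i * Q.eval (t i) = 0) →
      ∑ i, y i / (t i - τ) = 0 →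
      ∑ i, y i * s i / (t i - τ) = 0 →
      ∑ i, y i * g i / (t i - τ) ^ 2 = 0 → y = 0 := by
  classical
  have hev : ∀ τ : k, (Matrix.of (zpoly t s g)).det.eval τ =
      (Matrix.of fun r i => (zpoly t s g r i).eval τ).det := by
    intro τ
    rw [← coe_evalRingHom, RingHom.map_det]
    rfl
  refine ⟨(Matrix.of (zpoly t s g)).det.roots.toFinset ∪ Finset.univ.image t,
    fun τ hτ y h1 h2 h3 h4 h5 => ?_⟩
  simp only [Finset.mem_union, Multiset.mem_toFinset, mem_roots hD, IsRoot.def,
    Finset.mem_image, Finset.mem_univ, true_and, not_or, not_exists] at hτ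
  obtain ⟨hτ1, hτ2⟩ := hτ
  have hs : ∀ i, t i - τ ≠ 0 := fun i => sub_ne_zero.2 (hτ2 i)
  have hz : (fun i => y i / (t i - τ) ^ 2) = 0 := by
    rw [hev] at hτ1
    apply Matrix.eq_zero_of_mulVec_eq_zero hτ1
    ext r
    simp only [Matrix.mulVec, dotProduct, Matrix.of_apply, Pi.zero_apply]
    by_cases r1 : (r : ℕ) < 4
    · rw [← h1 (X ^ (r : ℕ)) (X_pow_mem r1)]
      refine Finset.sum_congr rfl fun i _ => ?_
      have := hs i
      simp only [zpoly, r1, if_true, eval_mul, eval_pow, eval_sub, eval_C, eval_X]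
      field_simp
    by_cases r2 : (r : ℕ) < 9
    · rw [← h2 (X ^ ((r : ℕ) - 4)) (X_pow_mem (by omega))]
      refine Finset.sum_congr rfl fun i _ => ?_
      have := hs i
      simp only [zpoly, r1, r2, if_true, if_false, eval_mul, eval_pow, eval_sub, eval_C, eval_X]
      field_simp
    by_cases r3 : (r : ℕ) = 9
    · rw [← h3]
      refine Finset.sum_congr rfl fun i _ => ?_
      have := hs i
      have e : zpoly t s g r i = C (t i) - X := by
        unfold zpoly
        rw [if_neg r1, if_neg r2, if_pos r3]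
      simp only [e, eval_sub, eval_C, eval_X]
      field_simp
    by_cases r4 : (r : ℕ) = 10
    · rw [← h4]
      refine Finset.sum_congr rfl fun i _ => ?_
      have := hs i
      have e : zpoly t s g r i = C (s i) * (C (t i) - X) := by
        unfold zpoly
        rw [if_neg r1, if_neg r2, if_neg r3, if_pos r4]
      simp only [e, eval_mul, eval_sub, eval_C, eval_X]
      field_simp
    · rw [← h5]
      refine Finset.sum_congr rfl fun i _ => ?_
      have := hs i
      simp only [zpoly, r1, r2, r3, r4, if_false, eval_C]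
      field_simp
  ext i
  have := congrFun hz i
  have h6 := pow_ne_zero 2 (hs i)
  exact (div_eq_zero_iff.1 this).resolve_right h6

lemma eval_AS_int {N : ℕ} (mm : Fin N → ℤ) (n : Fin N) (j : Fin (N + 1)) :
    MvPolynomial.eval (fun n => (mm n : k)) (AS N n j) =
      ((if j = n.castSucc then 1 else if j = Fin.last N then - mm n else 0 : ℤ) : k) := by
  unfold AS
  split_ifs <;> simp

lemma pderiv_AS_int {N : ℕ} (m : Fin N → k) (s n : Fin N) (j : Fin (N + 1)) :
    MvPolynomial.eval m (MvPolynomial.pderiv s (AS N n j)) =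
      ((if j = Fin.last N ∧ s = n then -1 else 0 : ℤ) : k) := by
  unfold AS
  by_cases h1 : j = n.castSucc
  · have h2 : ¬ (j = Fin.last N ∧ s = n) := by
      rintro ⟨h2, -⟩
      rw [h1] at h2
      exact (Fin.castSucc_lt_last n).ne h2
    rw [if_pos h1, if_neg h2]
    simp
  · rw [if_neg h1]
    by_cases h2 : j = Fin.last N
    · rw [if_pos h2]
      by_cases h3 : s = n
      · rw [if_pos ⟨h2, h3⟩, h3]
        simp
      · rw [if_neg (fun h => h3 h.2), map_neg, MvPolynomial.pderiv_X_of_ne (Ne.symm h3)]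
        simp
    · rw [if_neg h2, if_neg (fun h => h2 h.1)]
      simp

lemma exS34 : S34.ex = exS 3 4 := by
  ext j <;> fin_cases j <;> rfl

/-- the functional of the certificate -/
noncomputable def cS (k : Type*) [Field k] : (k[X] × k[X]) →ₗ[k] k :=
  ∑ n : Fin 8, (S34.mm n : k) • cfL 3 4 n.castSucc + cfL 3 4 (Fin.last 8)

lemma cfL_sec (a b : ℕ) (i j : Fin (a + b + 2)) :
    cfL a b i (sec (k := k) a b j) = if i = j then 1 else 0 := cf_sec a b i j

lemma cS_sec (j : Fin 8) : cS k (sec 3 4 j.castSucc) = (S34.mm j : k) := by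
  unfold cS
  rw [LinearMap.add_apply, LinearMap.sum_apply, cfL_sec 3 4 (Fin.last 8) j.castSucc,
    if_neg (Fin.castSucc_lt_last j).ne', add_zero, Finset.sum_eq_single j]
  · rw [LinearMap.smul_apply, cfL_sec 3 4 j.castSucc j.castSucc, if_pos rfl, smul_eq_mul, mul_one]
  · intro n _ hn
    rw [LinearMap.smul_apply, cfL_sec 3 4 n.castSucc j.castSucc, if_neg, smul_zero]
    intro h
    exact hn (Fin.castSucc_injective _ h)
  · simp

lemma cS_last : cS k (sec 3 4 (Fin.last 8)) = 1 := by
  unfold cS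
  rw [LinearMap.add_apply, LinearMap.sum_apply, cfL_sec 3 4 (Fin.last 8) (Fin.last 8),
    if_pos rfl, Finset.sum_eq_zero, zero_add]
  intro n _
  rw [LinearMap.smul_apply, cfL_sec 3 4 n.castSucc (Fin.last 8), if_neg, smul_zero]
  exact (Fin.castSucc_lt_last n).ne

theorem good_start [CharZero k] : Good k 3 4 0 := by
  classical
  have hp : Fact (1 < 31) := ⟨by norm_num⟩
  have hrank := fam_rank (k := k) (p := 31) (Q := 13) (R := 104) (AS 8) S34.ex
    (fun n => (S34.mm n : k)) S34.a0 (eval_AS_int S34.mm) S34.a1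
    (pderiv_AS_int _) S34.xys S34.pts S34.xs
    S34.hpts S34.hxs S34.hchk S34.hok 13 104 le_rfl le_rfl le_rfl
  rw [exS34] at hrank
  refine ⟨Fin 12, inferInstance, fun i => (S34.tz i : k), fun _ => 1, fun i => (S34.sz i : k),
    ((S34.xys.getD 0 (0, 0)).1 : k), 1, ((S34.xys.getD 0 (0, 0)).2 : k), cS k, ?_, ?_, ?_, ?_, ?_,
    ⟨Fin.elim0, ?_⟩, ?_⟩
  · simp
  · intro i
    have : (1 : k) + (S34.sz i : k) = (((1 + (S34.xys.getD (i + 1) (0, 0)).2 : ℕ) : ℕ) : k) := by
      unfold S34.sz
      push_cast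
      rfl
    rw [this]
    exact_mod_cast (by omega : 1 + (S34.xys.getD (i + 1) (0, 0)).2 ≠ 0)
  · have : (1 : k) + ((S34.xys.getD 0 (0, 0)).2 : k) =
        (((1 + (S34.xys.getD 0 (0, 0)).2 : ℕ) : ℕ) : k) := by
      push_cast
      rfl
    rw [this]
    exact_mod_cast (by omega : 1 + (S34.xys.getD 0 (0, 0)).2 ≠ 0)
  · have h1 : ((X ^ 3, 0) : k[X] × k[X]) = sec 3 4 (Fin.castSucc 3) := by
      simp [sec]
    rw [h1, cS_sec]
    have : S34.mm 3 = -2 := rfl
    rw [this]
    norm_num
  · have h1 : ((0, X ^ 4) : k[X] × k[X]) = sec 3 4 (Fin.last 8) := by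
      simp [sec]
    rw [h1, cS_last]
    exact one_ne_zero
  · intro F hF _
    let σ : Fin 13 ≃ Option (Fin 12) := finSuccEquiv 12
    have h1 : InK 3 4 (cS k) (fun i : Fin 13 => ((S34.xys.getD i (0, 0)).1 : k)) (fun _ => 1)
        (fun i : Fin 13 => ((S34.xys.getD i (0, 0)).2 : k)) (F ∘ σ) := by
      apply InK.reindex σ
      convert hF using 1
      · ext o
        cases o with
        | none => rfl
        | some i =>
          simp only [Function.comp_apply, σ, finSuccEquiv_symm_some, ext, S34.tz, Fin.val_succ]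
          push_cast
          rfl
      · ext o
        cases o <;> rfl
      · ext o
        cases o with
        | none => rfl
        | some i =>
          simp only [Function.comp_apply, σ, finSuccEquiv_symm_some, ext, S34.sz, Fin.val_succ]
          push_cast
          rfl
    have h2 := unbridge 3 4 (fun n => (S34.mm n : k)) (cS k) (fun n => by
      rw [cS_sec]
      change _ = _ * cS k (sec 3 4 (Fin.last 8))
      rw [cS_last, mul_one]) (by
      change cS k (sec 3 4 (Fin.last 8)) ≠ 0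
      rw [cS_last]
      exact one_ne_zero) (fun i : Fin 13 =>
        ![((S34.xys.getD i (0, 0)).1 : k), ((S34.xys.getD i (0, 0)).2 : k)]) (by
        rw [Fintype.card_fin]
        exact hrank) (F ∘ σ) h1
    ext1 o
    have h3 := congrFun h2 (σ.symm o)
    simpa using h3
  · obtain ⟨B1, hB1⟩ := ZC_gen _ _ _ (zpoly_det_ne (k := k) (fun _ => 1)
      (det_ne_of_mod (p := 31) _ (Matrix.of fun i t => ((Cert.dig 31 (S34.zi0 i) t : ℕ) : ℤ))
        S34.hz0))
    obtain ⟨B2, hB2⟩ := ZC_gen _ _ _ (zpoly_det_ne (k := k) S34.sz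
      (det_ne_of_mod (p := 31) _ (Matrix.of fun i t => ((Cert.dig 31 (S34.zi1 i) t : ℕ) : ℤ))
        S34.hz1))
    refine ⟨B1 ∪ B2, fun τ hτ => ?_⟩
    rw [Finset.mem_union, not_or] at hτ
    refine ⟨fun y h1 h2 h3 h4 h5 => ?_, fun y h1 h2 h3 h4 h5 => ?_⟩
    · apply hB1 τ hτ.1 y
      · simpa using h1
      · exact h2
      · simpa using h3
      · exact h4
      · simpa using h5
    · apply hB2 τ hτ.2 y
      · simpa using h2
      · exact h1
      · simpa using h4
      · exact h3
      · exact h5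

end Pool.Agent.W507.Scroll
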