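import Mathlib
import Pool.Agent.W507.Scr.Start
import Pool.Agent.W507.Scr.S23
import Pool.Agent.W507.Scr.S33

/-!
# Interpolation for the families of maps that define projected scrolls
-/

set_option autoImplicit false

namespace Pool.Agent.W507.Scroll

open Module

variable {k : Type*} [Field k]

lemma good_all [CharZero k] (j : ℕ) :
    Good k (3 + j) (4 + j) (2 * j) ∧ Good k (4 + j) (4 + j) (2 * j + 1) := by
  induction j with
  | zero => exact ⟨good_start, Good.step (by norm_num) good_start⟩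
  | succ j ih =>
    have h1 : Good k (3 + (j + 1)) (4 + (j + 1)) (2 * (j + 1)) := by
      have h2 := (Good.step (by omega) ih.2).swap
      have e1 : 3 + (j + 1) = 4 + j := by omega
      have e2 : 4 + (j + 1) = 4 + j + 1 := by omega
      have e3 : 2 * (j + 1) = 2 * j + 1 + 1 := by omega
      rw [e1, e2, e3]
      exact h2
    refine ⟨h1, ?_⟩
    have h3 := Good.step (by omega) h1
    have e1 : 4 + (j + 1) = 3 + (j + 1) + 1 := by omega
    rw [e1]
    rw [e1] at h3
    exact h3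

lemma tri_scroll {a b : ℕ} (ha : 1 ≤ a) (hb : 1 ≤ b) (m : Fin (a + b + 1) → k) :
    LinearIndependent k (tri (PhiOf (AS (a + b + 1)) (exS a b)) m (fun _ => 0)) := by
  have h0 : ∀ n, tri (PhiOf (AS (a + b + 1)) (exS a b)) m (fun _ => 0) 0 n =
      if (n : ℕ) = 0 then 1 else 0 := by
    intro n
    change val _ _ _ n = _
    rw [val_PhiOf, sum_AS]
    have hl : exS a b (Fin.last (a + b + 1)) = (b, 1) := by
      unfold exS
      rw [if_neg (by simp)]
      ext
      · simp only [Fin.val_last]; omega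
      · rfl
    rw [hl, pow_one, mul_zero, mul_zero, sub_zero]
    unfold exS
    simp only [Fin.val_castSucc]
    by_cases h1 : (n : ℕ) ≤ a
    · rw [if_pos h1, pow_zero, mul_one]
      by_cases h2 : (n : ℕ) = 0
      · simp [h2]
      · rw [if_neg h2, zero_pow h2]
    · rw [if_neg h1, if_neg (by omega)]
      simp
  have h1 : ∀ n, tri (PhiOf (AS (a + b + 1)) (exS a b)) m (fun _ => 0) 1 n =
      if (n : ℕ) = 1 then 1 else 0 := by
    intro n
    change der _ _ _ (Sum.inr 0) n = _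
    rw [der_inr0_PhiOf, sum_AS]
    have hl : exS a b (Fin.last (a + b + 1)) = (b, 1) := by
      unfold exS
      rw [if_neg (by simp)]
      ext
      · simp only [Fin.val_last]; omega
      · rfl
    rw [hl, pow_one, mul_zero, mul_zero, sub_zero]
    unfold exS
    simp only [Fin.val_castSucc]
    by_cases h1 : (n : ℕ) ≤ a
    · rw [if_pos h1, pow_zero, mul_one]
      by_cases h2 : (n : ℕ) = 1
      · simp [h2]
      · rw [if_neg h2]
        rcases Nat.eq_zero_or_pos (n : ℕ) with h3 | h3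
        · simp [h3]
        · rw [zero_pow (by omega), mul_zero]
    · rw [if_neg h1, if_neg (by omega)]
      simp
  have h2 : ∀ n, tri (PhiOf (AS (a + b + 1)) (exS a b)) m (fun _ => 0) 2 n =
      if (n : ℕ) = a + 1 then 1 else 0 := by
    intro n
    change der _ _ _ (Sum.inr 1) n = _
    rw [der_inr1_PhiOf, sum_AS]
    have hl : exS a b (Fin.last (a + b + 1)) = (b, 1) := by
      unfold exS
      rw [if_neg (by simp)]
      ext
      · simp only [Fin.val_last]; omega
      · rfl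
    rw [hl]
    simp only
    rw [zero_pow (by omega : b ≠ 0), zero_mul, mul_zero, sub_zero]
    unfold exS
    simp only [Fin.val_castSucc]
    by_cases h1 : (n : ℕ) ≤ a
    · rw [if_pos h1, if_neg (by omega)]
      simp
    · rw [if_neg h1]
      by_cases h3 : (n : ℕ) = a + 1
      · simp [h3]
      · rw [if_neg h3]
        simp only
        rw [zero_pow (by omega), zero_mul]
  rw [Fintype.linearIndependent_iff]
  intro g hg
  rw [Fin.sum_univ_three] at hg
  have e0 := congrFun hg ⟨0, by omega⟩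
  have e1 := congrFun hg ⟨1, by omega⟩
  have e2 := congrFun hg ⟨a + 1, by omega⟩
  simp only [Pi.add_apply, Pi.smul_apply, smul_eq_mul, h0, h1, h2, Pi.zero_apply] at e0 e1 e2
  have n3 : a ≠ 0 := by omega
  simp at e0
  simp [n3] at e1
  simp [n3] at e2
  intro i
  fin_cases i
  · exact e0
  · simpa using e1
  · simpa using e2

/-- rank conditions for the projected scrolls -/
theorem scroll_ranks [CharZero k] (a b : ℕ) (hab : b = a ∨ b = a + 1) (h5 : 5 ≤ a + b) :
    ∃ (q Q : ℕ) (m : Fin (a + b + 1) → k), Q ≤ q + 1 ∧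
      q * (a + b - 2) ≤ (a + b) ^ 2 + 3 * (a + b) - 5 ∧
      (∃ w1 : Fin q → Fin 2 → k, (a + b + 1) * q ≤
        (mat (PhiOf (AS (a + b + 1)) (exS a b)) m w1).rank) ∧
      (∃ w2 : Fin Q → Fin 2 → k, ((a + b) ^ 2 + 3 * (a + b) - 5) + 3 * Q ≤
        (mat (PhiOf (AS (a + b + 1)) (exS a b)) m w2).rank) := by
  have hp : Fact (1 < 31) := ⟨by norm_num⟩
  by_cases h7 : 8 ≤ a + b
  · obtain ⟨e, he, hG⟩ : ∃ e, e + 7 = a + b ∧ Good k a b e := by
      rcases hab with hab | hab
      · obtain ⟨j, hj⟩ : ∃ j, a = 4 + j := ⟨a - 4, by omega⟩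
        subst hj
        subst hab
        exact ⟨2 * j + 1, by omega, (good_all j).2⟩
      · obtain ⟨j, hj⟩ : ∃ j, a = 3 + j := ⟨a - 3, by omega⟩
        subst hj
        subst hab
        refine ⟨2 * j, by omega, ?_⟩
        have := (good_all (k := k) j).1
        have e1 : 3 + j + 1 = 4 + j := by omega
        rw [e1]
        exact this
    obtain ⟨m, ⟨w1, hw1⟩, ⟨w2, hw2⟩⟩ := scroll_rank (by omega) hG
    refine ⟨a + b + 5, a + b + 6, m, by omega, ?_, ⟨w1, hw1⟩, ⟨w2, ?_⟩⟩
    · obtain ⟨d, hd⟩ : ∃ d, a + b = d + 2 := ⟨a + b - 2, by omega⟩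
      rw [hd]
      have : d + 2 - 2 = d := by omega
      rw [this]
      have e2 : (d + 2) ^ 2 + 3 * (d + 2) - 5 = (d + 2 + 5) * d + 5 := by
        have : (d + 2) ^ 2 + 3 * (d + 2) = (d + 2 + 5) * d + 5 + 5 := by ring
        omega
      omega
    · obtain ⟨d, hd⟩ : ∃ d, a + b = d + 2 := ⟨a + b - 2, by omega⟩
      have e1 : (a + b + 1) * (a + b + 6) = ((a + b) ^ 2 + 3 * (a + b)) + 4 * (a + b) + 6 := by
        ring
      rw [e1] at hw2
      omega
  · have hcases : (a = 2 ∧ b = 3) ∨ (a = 3 ∧ b = 3) ∨ (a = 3 ∧ b = 4) := by omega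
    rcases hcases with ⟨rfl, rfl⟩ | ⟨rfl, rfl⟩ | ⟨rfl, rfl⟩
    · have hex : S23.ex = exS 2 3 := by
        ext j <;> fin_cases j <;> rfl
      have hr := fam_rank (k := k) (p := 31) (Q := 12) (R := 71) (AS 6) S23.ex
        (fun n => (S23.mm n : k)) S23.a0 (eval_AS_int S23.mm) S23.a1
        (pderiv_AS_int _) S23.xys S23.pts S23.xs S23.hpts S23.hxs S23.hchk S23.hok
      rw [hex] at hr
      exact ⟨11, 12, fun n => (S23.mm n : k), by norm_num, by norm_num,
        ⟨_, hr 11 66 (by norm_num) (by norm_num) (by norm_num)⟩,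
        ⟨_, hr 12 71 (by norm_num) (by norm_num) (by norm_num)⟩⟩
    · have hex : S33.ex = exS 3 3 := by
        ext j <;> fin_cases j <;> rfl
      have hr := fam_rank (k := k) (p := 31) (Q := 13) (R := 88) (AS 7) S33.ex
        (fun n => (S33.mm n : k)) S33.a0 (eval_AS_int S33.mm) S33.a1
        (pderiv_AS_int _) S33.xys S33.pts S33.xs S33.hpts S33.hxs S33.hchk S33.hok
      rw [hex] at hr
      exact ⟨12, 13, fun n => (S33.mm n : k), by norm_num, by norm_num,
        ⟨_, hr 12 84 (by norm_num) (by norm_num) (by norm_num)⟩,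
        ⟨_, hr 13 88 (by norm_num) (by norm_num) (by norm_num)⟩⟩
    · have hr := fam_rank (k := k) (p := 31) (Q := 13) (R := 104) (AS 8) S34.ex
        (fun n => (S34.mm n : k)) S34.a0 (eval_AS_int S34.mm) S34.a1
        (pderiv_AS_int _) S34.xys S34.pts S34.xs S34.hpts S34.hxs S34.hchk S34.hok
      rw [exS34] at hr
      exact ⟨13, 13, fun n => (S34.mm n : k), by norm_num, by norm_num,
        ⟨_, hr 13 104 (by norm_num) (by norm_num) (by norm_num)⟩,
        ⟨_, hr 13 104 (by norm_num) (by norm_num) (by norm_num)⟩⟩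

theorem scroll_general [CharZero k] [IsAlgClosed k] (a b : ℕ) (hab : b = a ∨ b = a + 1)
    (h5 : 5 ≤ a + b) (G0 : MvPolynomial (Fin (a + b + 1)) k) (hG0 : G0 ≠ 0) (n : ℕ)
    (lam : Fin n → ℕ) (hlam : ∀ i, lam i ≤ a + b - 2)
    (hsum : ∑ i, lam i = (a + b) ^ 2 + 3 * (a + b) - 5) :
    ∃ P : MvPolynomial ((Σ i : Fin n, Fin (a + b - 2 - lam i + 1)) × Fin (a + b + 1)) k, P ≠ 0 ∧
      ∀ v : (Σ i : Fin n, Fin (a + b - 2 - lam i + 1)) → Fin (a + b + 1) → k,
        MvPolynomial.eval (fun p => v p.1 p.2) P ≠ 0 →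
        ∃ (g : Matrix (Fin (a + b + 1)) (Fin (a + b + 1)) k) (m : Fin (a + b + 1) → k),
          g.det ≠ 0 ∧ MvPolynomial.eval m G0 ≠ 0 ∧
          ∀ i, ∃ u : Fin 2 → k, val (PhiOf (AS (a + b + 1)) (exS a b)) m u ≠ 0 ∧
            g.mulVec (val (PhiOf (AS (a + b + 1)) (exS a b)) m u) ∈
              Submodule.span k (Set.range fun j => v ⟨i, j⟩) := by
  obtain ⟨q, Q, m, hQ, hqD, ⟨w1, hw1⟩, ⟨w2, hw2⟩⟩ := scroll_ranks (k := k) a b hab h5
  exact general_open (c := a + b - 2) (q := q) (Q := Q) (D := (a + b) ^ 2 + 3 * (a + b) - 5)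
    (PhiOf (AS (a + b + 1)) (exS a b)) m G0 hG0 (by omega) (by omega) hQ hqD w1 hw1 w2 hw2
    (fun _ => 0) (tri_scroll (by omega) (by omega) m) n lam hlam hsum

end Pool.Agent.W507.Scroll
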