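import Mathlib
import Pool.Agent.W507.Scr.Geo
import Pool.Agent.W507.Scr.Inter

/-!
# The general projection of a balanced scroll is an embedding
-/

set_option autoImplicit false

namespace Pool.Agent.W507.DelPezzo

open MvPolynomial
open scoped LinearAlgebra.Projectivization

variable {k : Type*} [Field k]

/-- the standard sections of `O(1)` -/
noncomputable def Vp (a b : ℕ) (j : Fin (a + b + 2)) : MvPolynomial (Fin 2 ⊕ Fin 2) k :=
  if (j : ℕ) ≤ a then X (Sum.inr 0) * (X (Sum.inl 0) ^ (a - j) * X (Sum.inl 1) ^ (j : ℕ))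
  else X (Sum.inr 1) * (X (Sum.inl 0) ^ (b - (j - (a + 1))) * X (Sum.inl 1) ^ ((j : ℕ) - (a + 1)))

/-- exponents -/
noncomputable def Ve (a b : ℕ) (j : Fin (a + b + 2)) : Fin 2 ⊕ Fin 2 →₀ ℕ :=
  if (j : ℕ) ≤ a then Finsupp.single (Sum.inr 0) 1 + (Finsupp.single (Sum.inl 0) (a - j) +
    Finsupp.single (Sum.inl 1) (j : ℕ))
  else Finsupp.single (Sum.inr 1) 1 + (Finsupp.single (Sum.inl 0) (b - (j - (a + 1))) +
    Finsupp.single (Sum.inl 1) ((j : ℕ) - (a + 1)))

lemma Vp_eq (a b : ℕ) (j : Fin (a + b + 2)) : Vp (k := k) a b j = monomial (Ve a b j) 1 := by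
  unfold Vp Ve
  split_ifs
  · rw [X_pow_eq_monomial, X_pow_eq_monomial, monomial_mul, X, monomial_mul, one_mul, one_mul]
  · rw [X_pow_eq_monomial, X_pow_eq_monomial, monomial_mul, X, monomial_mul, one_mul, one_mul]

lemma Ve_inj (a b : ℕ) : Function.Injective (Ve a b) := by
  intro i j hij
  have h1 := DFunLike.congr_fun hij (Sum.inl 1)
  have h2 := DFunLike.congr_fun hij (Sum.inr 0)
  unfold Ve at h1 h2
  ext
  by_cases hi : (i : ℕ) ≤ a <;> by_cases hj : (j : ℕ) ≤ a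
  · simp [hi, hj] at h1
    exact h1
  · simp [hi, hj] at h2
  · simp [hi, hj] at h2
  · simp [hi, hj] at h1
    omega

lemma Vp_mem (a b : ℕ) (j : Fin (a + b + 2)) : Vp a b j ∈ scrollForms k a b := by
  unfold Vp
  split_ifs with h
  · refine ⟨X 0 ^ (a - j) * X 1 ^ (j : ℕ), 0, ?_, isHomogeneous_zero _ _ _, ?_⟩
    · have := ((isHomogeneous_X k (0 : Fin 2)).pow (a - j)).mul
        ((isHomogeneous_X k (1 : Fin 2)).pow (j : ℕ))
      have e : 1 * (a - j) + 1 * (j : ℕ) = a := by omega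
      rwa [e] at this
    · simp
  · refine ⟨0, X 0 ^ (b - (j - (a + 1))) * X 1 ^ ((j : ℕ) - (a + 1)), isHomogeneous_zero _ _ _,
      ?_, ?_⟩
    · have := ((isHomogeneous_X k (0 : Fin 2)).pow (b - (j - (a + 1)))).mul
        ((isHomogeneous_X k (1 : Fin 2)).pow ((j : ℕ) - (a + 1)))
      have e : 1 * (b - (j - (a + 1))) + 1 * ((j : ℕ) - (a + 1)) = b := by
        have := j.isLt
        omega
      rwa [e] at this
    · simp

lemma scrollForms_add {a b : ℕ} {F G : MvPolynomial (Fin 2 ⊕ Fin 2) k}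
    (hF : F ∈ scrollForms k a b) (hG : G ∈ scrollForms k a b) : F + G ∈ scrollForms k a b := by
  obtain ⟨P, Q, hP, hQ, rfl⟩ := hF
  obtain ⟨P', Q', hP', hQ', rfl⟩ := hG
  exact ⟨P + P', Q + Q', hP.add hP', hQ.add hQ', by simp only [map_add]; ring⟩

lemma scrollForms_smul {a b : ℕ} {F : MvPolynomial (Fin 2 ⊕ Fin 2) k} (r : k)
    (hF : F ∈ scrollForms k a b) : r • F ∈ scrollForms k a b := by
  obtain ⟨P, Q, hP, hQ, rfl⟩ := hF
  refine ⟨r • P, r • Q, ?_, ?_, by simp only [map_smul, smul_add, mul_smul_comm]⟩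
  · rw [smul_eq_C_mul]
    simpa using (isHomogeneous_C (Fin 2) r).mul hP
  · rw [smul_eq_C_mul]
    simpa using (isHomogeneous_C (Fin 2) r).mul hQ

/-- the sections vanishing at the center -/
noncomputable def hs (a b : ℕ) (m : Fin (a + b + 1) → k) (n : Fin (a + b + 1)) :
    MvPolynomial (Fin 2 ⊕ Fin 2) k := Vp a b n.castSucc - m n • Vp a b (Fin.last (a + b + 1))

lemma hs_mem (a b : ℕ) (m : Fin (a + b + 1) → k) (n : Fin (a + b + 1)) :
    hs a b m n ∈ scrollForms k a b := by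
  unfold hs
  rw [sub_eq_add_neg, ← neg_smul]
  exact scrollForms_add (Vp_mem _ _ _) (scrollForms_smul _ (Vp_mem _ _ _))

lemma hs_li (a b : ℕ) (m : Fin (a + b + 1) → k) : LinearIndependent k (hs a b m) := by
  classical
  rw [Fintype.linearIndependent_iff]
  intro g hg i
  have h1 := congrArg (coeff (Ve a b i.castSucc)) hg
  rw [coeff_sum, coeff_zero] at h1
  have h2 : ∀ n, coeff (Ve a b i.castSucc) (g n • hs a b m n) = if n = i then g i else 0 := by
    intro n
    rw [coeff_smul, hs, coeff_sub, coeff_smul, Vp_eq, Vp_eq, coeff_monomial, coeff_monomial]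
    have h3 : Ve a b (Fin.last (a + b + 1)) ≠ Ve a b i.castSucc := by
      intro h
      exact (Fin.castSucc_lt_last i).ne' (Ve_inj a b h)
    rw [if_neg h3, smul_zero, sub_zero]
    by_cases hn : n = i
    · subst hn
      simp
    · rw [if_neg, if_neg hn, smul_zero]
      intro h
      exact hn (Fin.castSucc_injective _ (Ve_inj a b h))
  rw [Finset.sum_congr rfl fun n _ => h2 n] at h1
  simpa using h1

/-- coordinates of the center -/
noncomputable def cvec {N : ℕ} (m : Fin N → k) : Fin (N + 1) → k := Fin.snoc (α := fun _ => k) m 1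

/-- the minor of the catalecticant matrix of a vector -/
def catv {R : Type*} [CommRing R] (a b : ℕ) (ha : 2 ≤ a) (hb : 3 ≤ b)
    (z : Fin (a + b + 2) → R) : R :=
  cat (z ⟨0, by omega⟩) (z ⟨1, by omega⟩) (z ⟨2, by omega⟩) (z ⟨a + 1, by omega⟩)
    (z ⟨a + 2, by omega⟩) (z ⟨a + 3, by omega⟩) (z ⟨a + 4, by omega⟩)

lemma delta_zero {a b : ℕ} (ha : 2 ≤ a) (hb : 3 ≤ b) (m : Fin (a + b + 1) → k)
    (hm : catv a b ha hb (cvec m) ≠ 0) (δ : Fin (a + b + 2) → k)
    (h1 : ∀ n : Fin (a + b + 1), δ n.castSucc = m n * δ (Fin.last _))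
    (h2 : catv a b ha hb δ = 0) : ∀ j, δ j = 0 := by
  have h3 : ∀ j, δ j = δ (Fin.last _) * cvec m j := by
    intro j
    refine Fin.lastCases ?_ (fun n => ?_) j
    · rw [cvec, Fin.snoc_last, mul_one]
    · rw [h1, cvec, Fin.snoc_castSucc, mul_comm]
  have h4 : catv a b ha hb δ = δ (Fin.last _) ^ 3 * catv a b ha hb (cvec m) := by
    unfold catv cat
    rw [h3 ⟨0, _⟩, h3 ⟨1, _⟩, h3 ⟨2, _⟩, h3 ⟨a + 1, _⟩, h3 ⟨a + 2, _⟩, h3 ⟨a + 3, _⟩,
      h3 ⟨a + 4, _⟩]
    ring
  rw [h4] at h2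
  have h5 : δ (Fin.last _) = 0 := by
    have := (mul_eq_zero.1 h2).resolve_right hm
    exact pow_eq_zero_iff (by norm_num) |>.1 this
  intro j
  rw [h3, h5, zero_mul]

/-- the open condition on the center -/
noncomputable def Gs (k : Type*) [Field k] (a b : ℕ) (ha : 2 ≤ a) (hb : 3 ≤ b) :
    MvPolynomial (Fin (a + b + 1)) k :=
  catv a b ha hb (Fin.snoc (α := fun _ => MvPolynomial (Fin (a + b + 1)) k) X 1)

lemma eval_Gs (a b : ℕ) (ha : 2 ≤ a) (hb : 3 ≤ b) (m : Fin (a + b + 1) → k) :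
    eval m (Gs k a b ha hb) = catv a b ha hb (cvec m) := by
  have h : ∀ j : Fin (a + b + 2), eval m ((Fin.snoc (α := fun _ =>
      MvPolynomial (Fin (a + b + 1)) k) X 1 : Fin (a + b + 1 + 1) → _) j) = cvec m j := by
    intro j
    refine Fin.lastCases ?_ (fun n => ?_) j
    · simp [cvec]
    · simp [cvec]
  unfold Gs catv cat
  simp only [map_add, map_sub, map_mul, h]

lemma Gs_ne (a b : ℕ) (ha : 2 ≤ a) (hb : 3 ≤ b) : Gs k a b ha hb ≠ 0 := by
  intro h0
  let m : Fin (a + b + 1) → k := fun n =>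
    if (n : ℕ) = 0 ∨ (n : ℕ) = a + 2 ∨ (n : ℕ) = a + 4 then 1 else 0
  have h1 := eval_Gs a b ha hb m
  rw [h0, map_zero] at h1
  have hc : ∀ (i : ℕ) (hi : i < a + b + 2), cvec m ⟨i, hi⟩ =
      if i = a + b + 1 then 1 else if i = 0 ∨ i = a + 2 ∨ i = a + 4 then 1 else 0 := by
    intro i hi
    by_cases h : i = a + b + 1
    · subst h
      rw [if_pos rfl]
      exact Fin.snoc_last (α := fun _ => k) 1 m
    · rw [if_neg h]
      have : (⟨i, hi⟩ : Fin (a + b + 2)) = Fin.castSucc (⟨i, by omega⟩ : Fin (a + b + 1)) := rfl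
      rw [this, cvec, Fin.snoc_castSucc]
  unfold catv cat at h1
  rw [hc, hc, hc, hc, hc, hc, hc] at h1
  have n1 : ¬ (1 = a + 2) := by omega
  have n2 : ¬ (1 = a + 4) := by omega
  have n3 : ¬ (2 = a + 2) := by omega
  have n4 : ¬ (2 = a + 4) := by omega
  have n5 : ¬ (0 = a + b + 1) := by omega
  have n6 : ¬ (1 = a + b + 1) := by omega
  have n7 : ¬ (2 = a + b + 1) := by omega
  have n8 : ¬ (a + 1 = a + b + 1) := by omega
  have n9 : ¬ (a + 2 = a + b + 1) := by omega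
  have n10 : ¬ (a + 3 = a + b + 1) := by omega
  simp only [n1, n2, n3, n4, n5, n6, n7, n8, n9, n10, if_false, or_false, true_or,
    if_true, or_true, false_or] at h1
  have n11 : ¬ (a + 1 = 0) := by omega
  have n12 : ¬ (a + 1 = a + 2) := by omega
  have n13 : ¬ (a + 1 = a + 4) := by omega
  have n14 : ¬ (a + 3 = 0) := by omega
  have n15 : ¬ (a + 3 = a + 2) := by omega
  have n16 : ¬ (a + 3 = a + 4) := by omega
  simp [n11, n12, n13, n14, n15, n16] at h1

end Pool.Agent.W507.DelPezzo
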