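import Mathlib
import Pool.Agent.W507.Scr.Emb

/-!
# The general projection of a balanced scroll is an embedding, part two
-/

set_option autoImplicit false
set_option linter.all false
set_option linter.unusedSimpArgs false

namespace Pool.Agent.W507.DelPezzo

open MvPolynomial
open scoped LinearAlgebra.Projectivization

variable {k : Type*} [Field k]

section

variable {a b : ℕ} (ha : 2 ≤ a) (hb : 3 ≤ b)

lemma Vp_of_le {j : ℕ} (hj : j < a + b + 2) (h : j ≤ a) : Vp (k := k) a b ⟨j, hj⟩ =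
    X (Sum.inr 0) * (X (Sum.inl 0) ^ (a - j) * X (Sum.inl 1) ^ j) := by
  unfold Vp
  rw [if_pos h]

lemma Vp_of_gt {j : ℕ} (hj : a + 1 + j < a + b + 2) : Vp (k := k) a b ⟨a + 1 + j, hj⟩ =
    X (Sum.inr 1) * (X (Sum.inl 0) ^ (b - j) * X (Sum.inl 1) ^ j) := by
  unfold Vp
  have h1 : ¬ (a + 1 + j ≤ a) := by omega
  have h2 : a + 1 + j - (a + 1) = j := by omega
  simp only [h1, if_false, h2]

/-- the minor vanishes on the differences -/
lemma catv_points (x y : Fin 2 ⊕ Fin 2 → k) (c : k) :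
    catv a b ha hb (fun j => eval x (Vp a b j) - c * eval y (Vp a b j)) = 0 := by
  obtain ⟨a, rfl⟩ : ∃ a', a = a' + 2 := ⟨a - 2, by omega⟩
  obtain ⟨b, rfl⟩ : ∃ b', b = b' + 3 := ⟨b - 3, by omega⟩
  have r1 : a + 2 - 1 = a + 1 := rfl
  have r2 : a + 2 - 2 = a := rfl
  have r3 : b + 3 - 1 = b + 2 := rfl
  have r4 : b + 3 - 2 = b + 1 := rfl
  have r5 : b + 3 - 3 = b := rfl
  unfold catv
  simp only []
  rw [Vp_of_le _ (by omega), Vp_of_le _ (by omega), Vp_of_le _ (by omega),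
    Vp_of_gt (j := 0), Vp_of_gt (j := 1), Vp_of_gt (j := 2), Vp_of_gt (j := 3)]
  simp only [map_mul, map_pow, eval_X, Nat.sub_zero, pow_zero, mul_one, pow_one, r1, r2, r3, r4, r5]
  apply cat_rank2 (p0 := x (Sum.inl 0) ^ 2) (p1 := x (Sum.inl 0) * x (Sum.inl 1))
    (p2 := x (Sum.inl 1) ^ 2) (q0 := x (Sum.inr 0) * x (Sum.inl 0) ^ a)
    (q1 := x (Sum.inr 1) * x (Sum.inl 0) ^ (b + 1))
    (q2 := x (Sum.inr 1) * (x (Sum.inl 0) ^ b * x (Sum.inl 1)))
    (p0' := y (Sum.inl 0) ^ 2) (p1' := y (Sum.inl 0) * y (Sum.inl 1))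
    (p2' := y (Sum.inl 1) ^ 2) (q0' := - c * (y (Sum.inr 0) * y (Sum.inl 0) ^ a))
    (q1' := - c * (y (Sum.inr 1) * y (Sum.inl 0) ^ (b + 1)))
    (q2' := - c * (y (Sum.inr 1) * (y (Sum.inl 0) ^ b * y (Sum.inl 1)))) <;> ring

lemma dir_pow_succ {σ : Type*} [Fintype σ] (a w : σ → k) (F : MvPolynomial σ k) (n : ℕ) :
    dir a w (F ^ (n + 1)) = ((n + 1 : ℕ) : k) * eval a F ^ n * dir a w F := by
  induction n with
  | zero => simp
  | succ n ih =>
    rw [pow_succ, dir_mul, ih, map_pow]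
    push_cast
    ring

lemma dir_pow {σ : Type*} [Fintype σ] (a w : σ → k) (F : MvPolynomial σ k) (n : ℕ) :
    dir a w (F ^ n) = (n : k) * eval a F ^ (n - 1) * dir a w F := by
  cases n with
  | zero =>
    have : (F ^ 0 : MvPolynomial σ k) = C 1 := by simp
    rw [this, dir_C]
    simp
  | succ n => exact dir_pow_succ a w F n

lemma catv_tangents (x w : Fin 2 ⊕ Fin 2 → k) (c : k) :
    catv a b ha hb (fun j => dir x w (Vp a b j) - c * eval x (Vp a b j)) = 0 := by
  obtain ⟨a, rfl⟩ : ∃ a', a = a' + 2 := ⟨a - 2, by omega⟩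
  obtain ⟨b, rfl⟩ : ∃ b', b = b' + 3 := ⟨b - 3, by omega⟩
  have r1 : a + 2 - 1 = a + 1 := rfl
  have r2 : a + 2 - 2 = a := rfl
  have r3 : b + 3 - 1 = b + 2 := rfl
  have r4 : b + 3 - 2 = b + 1 := rfl
  have r5 : b + 3 - 3 = b := rfl
  unfold catv
  simp only []
  have key : ∀ p q : MvPolynomial (Fin 2 ⊕ Fin 2) k, dir x w (p * q) - c * eval x (p * q) =
      dir x w p * eval x q + eval x p * (dir x w q - c * eval x q) := by
    intro p q
    rw [dir_mul, map_mul]
    ring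
  apply cat_rank2 (p0 := dir x w (X (Sum.inl 0) ^ 2))
    (p1 := dir x w (X (Sum.inl 0) * X (Sum.inl 1)))
    (p2 := dir x w (X (Sum.inl 1) ^ 2)) (q0 := eval x (X (Sum.inr 0) * X (Sum.inl 0) ^ a))
    (q1 := eval x (X (Sum.inr 1) * X (Sum.inl 0) ^ (b + 1)))
    (q2 := eval x (X (Sum.inr 1) * (X (Sum.inl 0) ^ b * X (Sum.inl 1))))
    (p0' := eval x (X (Sum.inl 0) ^ 2)) (p1' := eval x (X (Sum.inl 0) * X (Sum.inl 1)))
    (p2' := eval x (X (Sum.inl 1) ^ 2))
    (q0' := dir x w (X (Sum.inr 0) * X (Sum.inl 0) ^ a) -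
      c * eval x (X (Sum.inr 0) * X (Sum.inl 0) ^ a))
    (q1' := dir x w (X (Sum.inr 1) * X (Sum.inl 0) ^ (b + 1)) -
      c * eval x (X (Sum.inr 1) * X (Sum.inl 0) ^ (b + 1)))
    (q2' := dir x w (X (Sum.inr 1) * (X (Sum.inl 0) ^ b * X (Sum.inl 1))) -
      c * eval x (X (Sum.inr 1) * (X (Sum.inl 0) ^ b * X (Sum.inl 1)))) <;> rw [← key] <;>
    refine congrArg (fun F => dir x w F - c * eval x F) ?_
  · rw [Vp_of_le _ (by omega)]
    simp only [Nat.sub_zero, pow_zero, mul_one, r1, r2, r3, r4, r5]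
    ring
  · rw [Vp_of_le _ (by omega)]
    simp only [Nat.sub_zero, pow_zero, mul_one, r1, r2, r3, r4, r5]
    ring
  · rw [Vp_of_le _ (by omega)]
    simp only [Nat.sub_zero, pow_zero, mul_one, r1, r2, r3, r4, r5]
    ring
  · rw [Vp_of_gt (j := 0)]
    simp only [Nat.sub_zero, pow_zero, mul_one, r1, r2, r3, r4, r5]
    ring
  · rw [Vp_of_gt (j := 1)]
    simp only [Nat.sub_zero, pow_zero, mul_one, r1, r2, r3, r4, r5]
    ring
  · rw [Vp_of_gt (j := 2)]
    simp only [Nat.sub_zero, pow_zero, mul_one, r1, r2, r3, r4, r5]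
    ring
  · rw [Vp_of_gt (j := 1)]
    simp only [Nat.sub_zero, pow_zero, mul_one, r1, r2, r3, r4, r5]
    ring
  · rw [Vp_of_gt (j := 2)]
    simp only [Nat.sub_zero, pow_zero, mul_one, r1, r2, r3, r4, r5]
    ring
  · rw [Vp_of_gt (j := 3)]
    simp only [Nat.sub_zero, pow_zero, mul_one, r1, r2, r3, r4, r5]
    ring

lemma dir_smul {σ : Type*} [Fintype σ] (x w : σ → k) (r : k) (F : MvPolynomial σ k) :
    dir x w (r • F) = r * dir x w F := by
  rw [smul_eq_C_mul, dir_mul, dir_C, eval_C, zero_mul, zero_add]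

lemma points_zero {m : Fin (a + b + 1) → k} (hm : catv a b ha hb (cvec m) ≠ 0)
    (x y : Fin 2 ⊕ Fin 2 → k) (c : k)
    (h : ∀ n, eval x (hs a b m n) = c * eval y (hs a b m n)) (j : Fin (a + b + 2)) :
    eval x (Vp a b j) = c * eval y (Vp a b j) := by
  refine sub_eq_zero.1 (delta_zero ha hb m hm
    (fun j => eval x (Vp a b j) - c * eval y (Vp a b j)) (fun n => ?_)
    (catv_points ha hb x y c) j)
  have := h n
  unfold hs at this
  simp only [map_sub, smul_eval] at this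
  linear_combination this

lemma tangents_zero {m : Fin (a + b + 1) → k} (hm : catv a b ha hb (cvec m) ≠ 0)
    (x w : Fin 2 ⊕ Fin 2 → k) (c : k)
    (h : ∀ n, dir x w (hs a b m n) = c * eval x (hs a b m n)) (j : Fin (a + b + 2)) :
    dir x w (Vp a b j) = c * eval x (Vp a b j) := by
  refine sub_eq_zero.1 (delta_zero ha hb m hm
    (fun j => dir x w (Vp a b j) - c * eval x (Vp a b j)) (fun n => ?_)
    (catv_tangents ha hb x w c) j)
  have := h n
  unfold hs at this
  rw [dir_sub, dir_smul, map_sub, smul_eval] at this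
  linear_combination this

lemma inv_mul {N : ℕ} (g : Matrix (Fin N) (Fin N) k) (hg : g.det ≠ 0) (z z' : Fin N → k)
    (h : ∀ i, ∑ n, g i n * z n = ∑ n, g i n * z' n) : ∀ n, z n = z' n := by
  have h1 : g.mulVec (z - z') = 0 := by
    ext i
    rw [Matrix.mulVec_sub, Pi.sub_apply, Pi.zero_apply]
    exact sub_eq_zero.2 (h i)
  have h2 := Matrix.eq_zero_of_mulVec_eq_zero hg h1
  intro n
  exact sub_eq_zero.1 (congrFun h2 n)

theorem embeds_hs (m : Fin (a + b + 1) → k) (hm : catv a b ha hb (cvec m) ≠ 0)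
    (g : Matrix (Fin (a + b + 1)) (Fin (a + b + 1)) k) (hg : g.det ≠ 0) :
    Embeds scrollValid (scrollSame a b) (scrollVert a b)
      (fun i => ∑ n, g i n • hs a b m n) := by
  have hP : ∀ x y : Fin 2 ⊕ Fin 2 → k, ∀ c : k,
      (∀ j, eval x (∑ n, g j n • hs a b m n) = c * eval y (∑ n, g j n • hs a b m n)) →
      ∀ j, eval x (Vp a b j) = c * eval y (Vp a b j) := by
    intro x y c h
    refine points_zero ha hb hm x y c (inv_mul g hg _ _ fun i => ?_)
    have h1 := h i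
    simp only [map_sum, smul_eval] at h1
    rw [h1, Finset.mul_sum]
    exact Finset.sum_congr rfl fun n _ => by ring
  have hz : ∀ x : Fin 2 ⊕ Fin 2 → k, scrollValid x → ∃ j, eval x (Vp a b j) ≠ 0 := by
    intro x hx
    rcases hx.1 with h1 | h1 <;> rcases hx.2 with h2 | h2
    · refine ⟨⟨0, by omega⟩, ?_⟩
      rw [Vp_of_le _ (by omega)]
      simp [h1, h2]
    · refine ⟨⟨a + 1 + 0, by omega⟩, ?_⟩
      rw [Vp_of_gt]
      simp [h1, h2]
    · refine ⟨⟨a, by omega⟩, ?_⟩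
      rw [Vp_of_le _ (by omega)]
      simp [h1, h2]
    · refine ⟨⟨a + 1 + b, by omega⟩, ?_⟩
      rw [Vp_of_gt]
      simp [h1, h2]
  refine ⟨?_, ?_, ?_⟩
  · intro x hx
    by_contra hcon
    push Not at hcon
    obtain ⟨j, hj⟩ := hz x hx
    apply hj
    have := hP x x 0 (fun j => by rw [hcon j, mul_zero]) j
    rw [this, zero_mul]
  · intro x y c hx hy h
    have hV := hP x y c h
    have hc : c ≠ 0 := by
      rintro rfl
      obtain ⟨j, hj⟩ := hz x hx
      apply hj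
      rw [hV, zero_mul]
    have hA : ∀ i ≤ a, x (Sum.inr 0) * (x (Sum.inl 0) ^ (a - i) * x (Sum.inl 1) ^ i) =
        (c * y (Sum.inr 0)) * (y (Sum.inl 0) ^ (a - i) * y (Sum.inl 1) ^ i) := by
      intro i hi
      have := hV ⟨i, by omega⟩
      rw [Vp_of_le _ hi] at this
      simp only [map_mul, map_pow, eval_X] at this
      linear_combination this
    have hB : ∀ i ≤ b, x (Sum.inr 1) * (x (Sum.inl 0) ^ (b - i) * x (Sum.inl 1) ^ i) =
        (c * y (Sum.inr 1)) * (y (Sum.inl 0) ^ (b - i) * y (Sum.inl 1) ^ i) := by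
      intro i hi
      have := hV ⟨a + 1 + i, by omega⟩
      rw [Vp_of_gt] at this
      simp only [map_mul, map_pow, eval_X] at this
      linear_combination this
    have hρ : ∃ ρ : k, ρ ≠ 0 ∧ x (Sum.inl 0) = ρ * y (Sum.inl 0) ∧
        x (Sum.inl 1) = ρ * y (Sum.inl 1) := by
      rcases hx.2 with h2 | h2
      · exact line_same (by omega) h2 hx.1 hy.1 hA
      · exact line_same (by omega) h2 hx.1 hy.1 hB
    obtain ⟨ρ, h0, h1, h2⟩ := hρ
    refine ⟨ρ, c, h0, hc, ?_, ?_, ?_⟩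
    · intro i
      fin_cases i
      · exact h1
      · exact h2
    · refine line_coef hy.1 ?_
      rw [h1, h2] at hA
      exact hA
    · refine line_coef hy.1 ?_
      rw [h1, h2] at hB
      exact hB
  · intro x w c hx h
    have hV : ∀ j, dir x w (Vp a b j) = c * eval x (Vp a b j) := by
      refine tangents_zero ha hb hm x w c (inv_mul g hg _ _ fun i => ?_)
      have h1 : dir x w (∑ n, g i n • hs a b m n) = c * eval x (∑ n, g i n • hs a b m n) := h i
      rw [dir_sum] at h1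
      simp only [map_sum, smul_eval, dir_smul] at h1
      rw [h1, Finset.mul_sum]
      exact Finset.sum_congr rfl fun n _ => by ring
    have hA : ∀ i ≤ a, w (Sum.inr 0) * (x (Sum.inl 0) ^ (a - i) * x (Sum.inl 1) ^ i) +
        x (Sum.inr 0) * dmon a i (x (Sum.inl 0)) (x (Sum.inl 1)) (w (Sum.inl 0))
          (w (Sum.inl 1)) =
        c * (x (Sum.inr 0) * (x (Sum.inl 0) ^ (a - i) * x (Sum.inl 1) ^ i)) := by
      intro i hi
      have := hV ⟨i, by omega⟩
      rw [Vp_of_le _ hi] at this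
      rw [dir_mul, dir_mul, dir_pow, dir_pow] at this
      simp only [map_mul, map_pow, eval_X, dir_X] at this
      unfold dmon
      linear_combination this
    have hB : ∀ i ≤ b, w (Sum.inr 1) * (x (Sum.inl 0) ^ (b - i) * x (Sum.inl 1) ^ i) +
        x (Sum.inr 1) * dmon b i (x (Sum.inl 0)) (x (Sum.inl 1)) (w (Sum.inl 0))
          (w (Sum.inl 1)) =
        c * (x (Sum.inr 1) * (x (Sum.inl 0) ^ (b - i) * x (Sum.inl 1) ^ i)) := by
      intro i hi
      have := hV ⟨a + 1 + i, by omega⟩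
      rw [Vp_of_gt] at this
      rw [dir_mul, dir_mul, dir_pow, dir_pow] at this
      simp only [map_mul, map_pow, eval_X, dir_X] at this
      unfold dmon
      linear_combination this
    have hρ : ∃ ρ : k, w (Sum.inl 0) = ρ * x (Sum.inl 0) ∧
        w (Sum.inl 1) = ρ * x (Sum.inl 1) := by
      rcases hx.2 with h2 | h2
      · exact line_tan (by omega) h2 hx.1 hA
      · exact line_tan (by omega) h2 hx.1 hB
    obtain ⟨ρ, h1, h2⟩ := hρ
    refine ⟨ρ, c, ?_, ?_, ?_⟩
    · intro i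
      fin_cases i
      · exact h1
      · exact h2
    · refine line_tcoef hx.1 ?_
      rw [h1, h2] at hA
      exact hA
    · refine line_tcoef hx.1 ?_
      rw [h1, h2] at hB
      exact hB

end

end Pool.Agent.W507.DelPezzo
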