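import Mathlib
import Pool.Agent.W507.Scr.Embed

/-!
# Interpolation for projected scrolls
-/

set_option autoImplicit false

namespace Pool.Agent.W507.DelPezzo

open MvPolynomial
open scoped LinearAlgebra.Projectivization

variable {k : Type*} [Field k]

/-- reformulation of interpolation -/
theorem all_of {n D c : ℕ} (hn : n = c + 2) (H : Set (Set (ℙ k (Fin (n + 1) → k))))
    (hfam : ∀ (m : ℕ) (lam : Fin m → ℕ), (∀ i, lam i ≤ c) → ∑ i, lam i = D →
      ∃ P : MvPolynomial ((Σ i : Fin m, Fin (c - lam i + 1)) × Fin (n + 1)) k, P ≠ 0 ∧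
        ∀ v : (Σ i : Fin m, Fin (c - lam i + 1)) → Fin (n + 1) → k,
          eval (fun p => v p.1 p.2) P ≠ 0 → ∃ Y ∈ H, ∀ i, ∃ y ∈ Y,
            y.submodule ≤ Submodule.span k (Set.range fun j => v ⟨i, j⟩)) :
    AllInterpolation D H := by
  subst hn
  intro m lam hlam hsum
  obtain ⟨P, hP, h⟩ := hfam m lam (fun i => hlam i) hsum
  refine ⟨P, hP, fun v _ hv => ?_⟩
  exact h (fun p => v p.1 p.2) hv

theorem AllInterpolation.interpolation {n D : ℕ} (hn : 2 < n)
    {H : Set (Set (ℙ k (Fin (n + 1) → k)))}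
    (h : AllInterpolation D H) : Interpolation D H := by
  have hpos : 0 < n - 2 := by omega
  refine h _ _ ?_ ?_
  · intro i
    refine Fin.lastCases ?_ (fun i => ?_) i
    · rw [Fin.snoc_last]
      exact (Nat.mod_lt _ hpos).le
    · rw [Fin.snoc_castSucc]
  · rw [Fin.sum_univ_castSucc]
    simp only [Fin.snoc_castSucc, Fin.snoc_last, Finset.sum_const, Finset.card_univ,
      Fintype.card_fin, smul_eq_mul]
    exact Nat.div_add_mod' D (n - 2)

lemma eval_Vp (a b : ℕ) (j : Fin (a + b + 2)) (t s : k) :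
    eval (Sum.elim ![1, t] ![1, s]) (Vp a b j) = t ^ (Scroll.exS a b j).1 *
      s ^ (Scroll.exS a b j).2 := by
  unfold Vp Scroll.exS
  split_ifs
  · simp
  · simp [mul_comm]

theorem scroll_all [CharZero k] [IsAlgClosed k] (a b : ℕ) (hab : b = a ∨ b = a + 1)
    (h5 : 5 ≤ a + b) :
    AllInterpolation (n := a + b) ((a + b) ^ 2 + 3 * (a + b) - 5)
      {Y | IsProjectedScroll (k := k) a b Y} := by
  refine all_of (c := a + b - 2) (by omega) _ fun m lam hlam hsum => ?_
  have ha : 2 ≤ a := by omega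
  have hb : 3 ≤ b := by omega
  obtain ⟨P, hP, h⟩ := Scroll.scroll_general a b hab h5 (Gs k a b ha hb) (Gs_ne a b ha hb) m lam
    hlam hsum
  refine ⟨P, hP, fun v hv => ?_⟩
  obtain ⟨g, mm, hg, hmm, hu⟩ := h v hv
  rw [eval_Gs] at hmm
  obtain ⟨h1, -⟩ := basis_change _ g hg (hs_li a b mm)
  refine ⟨zclosure (image (n := a + b) fun i => ∑ n, g i n • hs a b mm n),
    ⟨_, h1, fun j => ?_, embeds_hs ha hb mm hmm g hg, rfl⟩, fun i => ?_⟩
  · refine Finset.sum_induction _ (fun F => F ∈ scrollForms k a b)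
      (fun _ _ => scrollForms_add) ⟨0, 0, isHomogeneous_zero _ _ _, isHomogeneous_zero _ _ _,
        by simp⟩ fun n _ => scrollForms_smul _ (hs_mem a b mm n)
  · obtain ⟨u, hu, huL⟩ := hu i
    have he : (fun n => eval (Sum.elim ![1, u 0] ![1, u 1]) (hs a b mm n)) =
        val (PhiOf (Scroll.AS (a + b + 1)) (Scroll.exS a b)) mm u := by
      ext n
      rw [val_PhiOf]
      have := Scroll.sum_AS mm n (fun j => u 0 ^ (Scroll.exS a b j).1 *
        u 1 ^ (Scroll.exS a b j).2)
      rw [this, hs, map_sub, smul_eval, eval_Vp, eval_Vp]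
    exact mem_image (n := a + b) _ g hg (Sum.elim ![1, u 0] ![1, u 1]) (by rw [he]; exact hu) _
      (by rw [he]; exact huL)

end Pool.Agent.W507.DelPezzo
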