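import Mathlib
import Pool.Agent.W507.Scr.Final
import Pool.Agent.W507.S9
import Pool.Agent.W507.S81
import Pool.Agent.W507.S80
import Pool.Agent.W507.S7
import Pool.Agent.W507.S6
import Pool.Agent.W507.S5
import Pool.Agent.W507.S4
import Pool.Agent.W507.S3

/-!
# Interpolation for all del Pezzo surfaces, for all systems of numbers
-/

set_option autoImplicit false

namespace Pool.Agent.W507.DelPezzo

open MvPolynomial
open scoped LinearAlgebra.Projectivization

variable {k : Type*} [Field k]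

theorem plane_all [CharZero k] [IsAlgClosed k] (r : Fin 7) {c q Q D R p μ K : ℕ}
    [Fact (1 < p)]
    (A : Fin (9 - r + 1) → Fin K → MvPolynomial (Fin μ) k) (ex : Fin K → ℕ × ℕ)
    (m0 : Fin μ → k) (G0 : MvPolynomial (Fin μ) k) (hG0 : eval m0 G0 ≠ 0)
    (a0 : Fin (9 - r + 1) → Fin K → ℤ) (ha0 : ∀ b j, eval m0 (A b j) = (a0 b j : k))
    (a1 : Fin μ → Fin (9 - r + 1) → Fin K → ℤ)
    (ha1 : ∀ s b j, eval m0 (pderiv s (A b j)) = (a1 s b j : k))
    (hN : 9 - (r : ℕ) = c + 2) (hc : 0 < c) (hQ : Q ≤ q + 1) (hqQ : q ≤ Q) (hqD : q * c ≤ D)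
    (hDQ : D ≤ Q * c) (hR : R = D + 3 * Q)
    (xys pts : List (ℕ × ℕ)) (xs : List ℕ) (hpts : pts.length = Q) (hxs : xs.length = R)
    (hchk : Cert.chkAll p (9 - r + 1) μ R pts xs 0 = true) (hok : ptsOK p ex a0 a1 xys pts Q)
    (ys : Fin 3 → ℕ) (htri : triOK p ex a0 (xys.getD 0 (0, 0)) ys)
    (hgeo : ∀ m : Fin μ → k, eval m G0 ≠ 0 → ∃ p : Fin r → Fin 3 → k, InGeneralPosition p ∧
      LinearIndependent k (fam (fun j => mon3 (ex j)) (fun b j => eval m (A b j))) ∧
      Submodule.span k (Set.range (fam (fun j => mon3 (ex j)) (fun b j => eval m (A b j)))) =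
        cubicsThrough p) :
    AllInterpolation D {Y | IsDelPezzo (k := k) (Kind.plane r) Y} := by
  refine all_of (c := c) hN _ fun m lam hlam hsum => ?_
  obtain ⟨P, hP, h⟩ := fam_general A ex m0 G0 hG0 a0 ha0 a1 ha1 (by omega) hc hQ hqQ hqD hDQ
    hR xys pts xs hpts hxs hchk hok ys htri m lam hlam hsum
  refine ⟨P, hP, fun v hv => ?_⟩
  obtain ⟨g, mm, hg, hmm, hu⟩ := h v hv
  obtain ⟨pp, hgp, hsp⟩ := hgeo mm hmm
  obtain ⟨f, hf1, hf2, hf3⟩ := plane_meets ex A mm pp hsp g hg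
    (fun i => Submodule.span k (Set.range fun j => v ⟨i, j⟩)) hu
  exact ⟨zclosure (image f), ⟨pp, hgp, f, hf1, hf2, rfl⟩, hf3⟩

theorem all_S9 [CharZero k] [IsAlgClosed k] :
    AllInterpolation 91 {Y | IsDelPezzo (k := k) (Kind.plane 0) Y} := by
  have : Fact (1 < 31) := ⟨by norm_num⟩
  refine plane_all (c := 7) (q := 13) (Q := 13) (D := 91) (R := 130) (p := 31) 0 (idA 10) C9.ex
    0 1 (by simp) C9.a0 ?_ C9.a1 (fun s => s.elim0) rfl (by norm_num) (by norm_num)
    (by norm_num) (by norm_num) (by norm_num) (by norm_num) C9.xys C9.pts C9.xs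
    C9.hpts C9.hxs C9.hchk C9.hok C9.ys C9.htri
    fun m _ => ⟨pp0, gp0, span0 m⟩
  intro b j
  rw [eval_idA]
  unfold C9.a0
  split_ifs <;> simp

theorem all_S81 [CharZero k] [IsAlgClosed k] :
    AllInterpolation 74 {Y | IsDelPezzo (k := k) (Kind.plane 1) Y} := by
  have : Fact (1 < 31) := ⟨by norm_num⟩
  refine plane_all (c := 6) (q := 12) (Q := 13) (D := 74) (R := 113) (p := 31) 1 (idA 9) C81.ex
    0 1 (by simp) C81.a0 ?_ C81.a1 (fun s => s.elim0) rfl (by norm_num) (by norm_num)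
    (by norm_num) (by norm_num) (by norm_num) (by norm_num) C81.xys C81.pts C81.xs
    C81.hpts C81.hxs C81.hchk C81.hok C81.ys C81.htri
    fun m _ => ⟨pp1, gp1, span1 m⟩
  intro b j
  rw [eval_idA]
  unfold C81.a0
  split_ifs <;> simp

theorem all_S7 [CharZero k] [IsAlgClosed k] :
    AllInterpolation 59 {Y | IsDelPezzo (k := k) (Kind.plane 2) Y} := by
  have : Fact (1 < 31) := ⟨by norm_num⟩
  refine plane_all (c := 5) (q := 11) (Q := 12) (D := 59) (R := 95) (p := 31) 2 (idA 8) C7.ex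
    0 1 (by simp) C7.a0 ?_ C7.a1 (fun s => s.elim0) rfl (by norm_num) (by norm_num)
    (by norm_num) (by norm_num) (by norm_num) (by norm_num) C7.xys C7.pts C7.xs
    C7.hpts C7.hxs C7.hchk C7.hok C7.ys C7.htri
    fun m _ => ⟨pp2, gp2, span2 m⟩
  intro b j
  rw [eval_idA]
  unfold C7.a0
  split_ifs <;> simp

theorem all_S6 [CharZero k] [IsAlgClosed k] :
    AllInterpolation 46 {Y | IsDelPezzo (k := k) (Kind.plane 3) Y} := by
  have : Fact (1 < 31) := ⟨by norm_num⟩
  refine plane_all (c := 4) (q := 11) (Q := 12) (D := 46) (R := 82) (p := 31) 3 (idA 7) C6.ex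
    0 1 (by simp) C6.a0 ?_ C6.a1 (fun s => s.elim0) rfl (by norm_num) (by norm_num) (by norm_num)
    (by norm_num) (by norm_num) (by norm_num) C6.xys C6.pts C6.xs C6.hpts C6.hxs C6.hchk C6.hok
    C6.ys C6.htri fun m _ => ⟨pp3, gp3, span3 m⟩
  intro b j
  rw [eval_idA]
  unfold C6.a0
  split_ifs <;> simp

theorem all_S5 [CharZero k] [IsAlgClosed k] :
    AllInterpolation 35 {Y | IsDelPezzo (k := k) (Kind.plane 4) Y} := by
  have : Fact (1 < 31) := ⟨by norm_num⟩
  refine plane_all (c := 3) (q := 11) (Q := 12) (D := 35) (R := 71) (p := 31) 4 A4 C5.ex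
    0 1 (by simp) C5.a0 ?_ C5.a1 (fun s => s.elim0) rfl (by norm_num) (by norm_num) (by norm_num)
    (by norm_num) (by norm_num) (by norm_num) C5.xys C5.pts C5.xs C5.hpts C5.hxs C5.hchk C5.hok
    C5.ys C5.htri fun m _ => ⟨pp4, gp4, span4 m⟩
  intro b j
  change Fin 6 at b
  fin_cases b <;> fin_cases j <;> simp [A4, C5.a0]

theorem all_S4 [CharZero k] [IsAlgClosed k] :
    AllInterpolation 26 {Y | IsDelPezzo (k := k) (Kind.plane 5) Y} := by
  have : Fact (1 < 31) := ⟨by norm_num⟩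
  refine plane_all (c := 2) (q := 13) (Q := 13) (D := 26) (R := 65) (p := 31) 5
    (A5 (X 0) (X 1)) C4.ex
    ![2, 3] (G5 (X 0) (X 1)) ?_ C4.a0 ?_ C4.a1 ?_ rfl (by norm_num) (by norm_num) (by norm_num)
    (by norm_num) (by norm_num) (by norm_num) C4.xys C4.pts C4.xs C4.hpts C4.hxs C4.hchk C4.hok
    C4.ys C4.htri fun m hm => ⟨pp5 (m 0) (m 1), gp5 ?_, span5 m ?_⟩
  · simp [G5]
    norm_num
  · intro b j
    change Fin 5 at b
    fin_cases b <;> fin_cases j <;> simp [A5, HH, C4.a0] <;> norm_num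
  · intro s b j
    change Fin 5 at b
    fin_cases s <;> fin_cases b <;> fin_cases j <;>
      simp [A5, HH, C4.a1, pderiv_mul, pderiv_pow, pderiv_X] <;> norm_num
  · simpa [G5] using hm
  · simpa [G5] using hm

theorem all_S3 [CharZero k] [IsAlgClosed k] :
    AllInterpolation 19 {Y | IsDelPezzo (k := k) (Kind.plane 6) Y} := by
  have : Fact (1 < 31) := ⟨by norm_num⟩
  refine plane_all (c := 1) (q := 19) (Q := 19) (D := 19) (R := 76) (p := 31) 6
    (A6 (X 0) (X 1) (X 2) (X 3)) C3.ex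
    ![2, 3, -1, 2] (G6 (X 0) (X 1) (X 2) (X 3)) ?_ C3.a0 ?_ C3.a1 ?_ rfl (by norm_num)
    (by norm_num) (by norm_num)
    (by norm_num) (by norm_num) (by norm_num) C3.xys C3.pts C3.xs C3.hpts C3.hxs C3.hchk C3.hok
    C3.ys C3.htri fun m hm => ⟨pp6 (m 0) (m 1) (m 2) (m 3), gp6 ?_, span6 m ?_⟩
  · simp [G6, G5, conicDet]
    norm_num
  · intro b j
    change Fin 4 at b
    fin_cases b <;> fin_cases j <;> simp [A6, DD, HH, C3.a0] <;> norm_num
  · intro s b j
    change Fin 4 at b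
    fin_cases s <;> fin_cases b <;> fin_cases j <;>
      simp [A6, DD, HH, C3.a1, pderiv_X] <;> norm_num
  · simpa [G6, G5, conicDet] using hm
  · simpa [G6, G5, conicDet] using hm

theorem all_S80 [CharZero k] [IsAlgClosed k] :
    AllInterpolation 74 {Y | IsDelPezzo (k := k) Kind.quadric Y} := by
  have : Fact (1 < 31) := ⟨by norm_num⟩
  refine all_of (c := 6) rfl _ fun m lam hlam hsum => ?_
  obtain ⟨P, hP, h⟩ := fam_general (N := 8 + 1) (k := k) (c := 6) (q := 12) (Q := 13) (D := 74)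
    (R := 113)
    (p := 31) (idA 9) C80.ex 0 1 (by simp) C80.a0 (by
      intro b j
      rw [eval_idA]
      unfold C80.a0
      split_ifs <;> simp) C80.a1 (fun s => s.elim0) rfl (by norm_num) (by norm_num) (by norm_num)
    (by norm_num) (by norm_num) (by norm_num) C80.xys C80.pts C80.xs
    C80.hpts C80.hxs C80.hchk C80.hok C80.ys C80.htri m lam hlam hsum
  refine ⟨P, hP, fun v hv => ?_⟩
  obtain ⟨g, mm, hg, hmm, hu⟩ := h v hv
  obtain ⟨hli, hsp⟩ := span22 mm
  obtain ⟨h1, h2⟩ := basis_change _ g hg hli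
  refine ⟨zclosure (image _), ⟨_, h1, h2.trans hsp, rfl⟩, fun i => ?_⟩
  obtain ⟨u, hu, huL⟩ := hu i
  have he : (fun b => eval (Sum.elim ![u 0, 1] ![u 1, 1])
      (fam (fun j => mon22 (C80.ex j)) (fun b j => eval mm (idA 9 b j)) b)) =
      val (PhiOf (idA 9) C80.ex) mm u := by
    ext b
    rw [val_PhiOf, fam, map_sum]
    refine Finset.sum_congr rfl fun j _ => ?_
    rw [eval_mon22]
    simp
  exact mem_image _ g hg (Sum.elim ![u 0, 1] ![u 1, 1]) (by rw [he]; exact hu) _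
    (by rw [he]; exact huL)

theorem delPezzo_all [IsAlgClosed k] [CharZero k] (T : Kind) :
    AllInterpolation (T.degree ^ 2 + 10) {Y | IsDelPezzo (k := k) T Y} := by
  cases T with
  | quadric => exact all_S80
  | plane r =>
    fin_cases r
    · exact all_S9
    · exact all_S81
    · exact all_S7
    · exact all_S6
    · exact all_S5
    · exact all_S4
    · exact all_S3

end Pool.Agent.W507.DelPezzo
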