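import Mathlib
import Pool.Agent.W507.Scr.Final
import Pool.Agent.W507.CV

/-!
# Interpolation for projected Veronese surfaces
-/

set_option autoImplicit false

namespace Pool.Agent.W507.DelPezzo

open MvPolynomial
open scoped LinearAlgebra.Projectivization

variable {k : Type*} [Field k]

/-- quadratic forms apolar to the sum of the squares -/
noncomputable def hV (k : Type*) [Field k] : Fin 5 → MvPolynomial (Fin 3) k :=
  ![X 0 * X 1, X 0 * X 2, X 1 * X 2, X 0 ^ 2 - X 1 ^ 2, X 1 ^ 2 - X 2 ^ 2]

lemma hV_hom (b : Fin 5) : (hV k b).IsHomogeneous 2 := by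
  fin_cases b
  · exact (isHomogeneous_X k (0 : Fin 3)).mul (isHomogeneous_X k (1 : Fin 3))
  · exact (isHomogeneous_X k (0 : Fin 3)).mul (isHomogeneous_X k (2 : Fin 3))
  · exact (isHomogeneous_X k (1 : Fin 3)).mul (isHomogeneous_X k (2 : Fin 3))
  · exact ((isHomogeneous_X k (0 : Fin 3)).pow 2).sub ((isHomogeneous_X k (1 : Fin 3)).pow 2)
  · exact ((isHomogeneous_X k (1 : Fin 3)).pow 2).sub ((isHomogeneous_X k (2 : Fin 3)).pow 2)

lemma hV_li : LinearIndependent k (hV k) := by
  rw [Fintype.linearIndependent_iff]
  intro g hg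
  have key : ∀ x : Fin 3 → k, g 0 * (x 0 * x 1) + g 1 * (x 0 * x 2) + g 2 * (x 1 * x 2) +
      g 3 * (x 0 ^ 2 - x 1 ^ 2) + g 4 * (x 1 ^ 2 - x 2 ^ 2) = 0 := by
    intro x
    have := congrArg (eval x) hg
    rw [map_sum, Fin.sum_univ_five] at this
    simpa [hV, smul_eval] using this
  have h1 := key ![1, 0, 0]
  have h2 := key ![0, 0, 1]
  have h3 := key ![1, 1, 0]
  have h4 := key ![1, 0, 1]
  have h5 := key ![0, 1, 1]
  simp at h1 h2 h3 h4 h5
  rw [h2] at h3 h4
  rw [h1] at h4 h5
  simp at h3 h4 h5
  intro i
  fin_cases i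
  · exact h3
  · exact h4
  · exact h5
  · exact h1
  · exact h2

/-- a scalar symmetric matrix of rank two is zero -/
lemma scalar_zero {p q p' q' : Fin 3 → k} {l : k}
    (h : ∀ i j, p i * q j + p' i * q' j = if i = j then l else 0) : l = 0 := by
  have h00 := h 0 0
  have h01 := h 0 1
  have h02 := h 0 2
  have h10 := h 1 0
  have h11 := h 1 1
  have h12 := h 1 2
  have h20 := h 2 0
  have h21 := h 2 1
  have h22 := h 2 2
  simp at h00 h01 h02 h10 h11 h12 h20 h21 h22
  have e : Matrix.det (Matrix.of ![![p 0 * q 0 + p' 0 * q' 0, p 0 * q 1 + p' 0 * q' 1,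
      p 0 * q 2 + p' 0 * q' 2], ![p 1 * q 0 + p' 1 * q' 0, p 1 * q 1 + p' 1 * q' 1,
      p 1 * q 2 + p' 1 * q' 2], ![p 2 * q 0 + p' 2 * q' 0, p 2 * q 1 + p' 2 * q' 1,
      p 2 * q 2 + p' 2 * q' 2]]) = 0 := by
    rw [Matrix.det_fin_three]
    simp
    ring
  rw [h00, h01, h02, h10, h11, h12, h20, h21, h22, Matrix.det_fin_three] at e
  simp at e
  exact e

theorem embeds_hV [CharZero k] (g : Matrix (Fin 5) (Fin 5) k) (hg : g.det ≠ 0) :
    Embeds (fun x => x ≠ 0) (fun x y => ∃ ρ : k, ρ ≠ 0 ∧ x = ρ • y)
      (fun x w => ∃ ρ : k, w = ρ • x) (fun i => ∑ n, g i n • hV k n) := by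
  have hP : ∀ x y : Fin 3 → k, ∀ c : k,
      (∀ j, eval x (∑ n, g j n • hV k n) = c * eval y (∑ n, g j n • hV k n)) →
      ∀ i j, x i * x j = c * (y i * y j) := by
    intro x y c h
    have h1 : ∀ n, eval x (hV k n) = c * eval y (hV k n) := by
      refine inv_mul g hg (fun n => eval x (hV k n)) (fun n => c * eval y (hV k n)) fun i => ?_
      have h1 := h i
      simp only [map_sum, smul_eval] at h1
      rw [h1, Finset.mul_sum]
      exact Finset.sum_congr rfl fun n _ => by ring
    have e0 := h1 0
    have e1 := h1 1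
    have e2 := h1 2
    have e3 := h1 3
    have e4 := h1 4
    simp [hV] at e0 e1 e2 e3 e4
    have hl : x 0 * x 0 - c * (y 0 * y 0) = 0 := by
      apply scalar_zero (p := x) (q := x) (p' := y) (q' := fun j => - c * y j)
      intro i j
      fin_cases i <;> fin_cases j <;> simp
      · ring
      · linear_combination e0
      · linear_combination e1
      · linear_combination e0
      · linear_combination -e3
      · linear_combination e2
      · linear_combination e1
      · linear_combination e2
      · linear_combination -e3 - e4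
    intro i j
    fin_cases i <;> fin_cases j <;> simp
    · linear_combination hl
    · linear_combination e0
    · linear_combination e1
    · linear_combination e0
    · linear_combination hl - e3
    · linear_combination e2
    · linear_combination e1
    · linear_combination e2
    · linear_combination hl - e3 - e4
  refine ⟨?_, ?_, ?_⟩
  · intro x hx
    by_contra hcon
    push Not at hcon
    apply hx
    have := hP x x 0 (fun j => by rw [hcon j, mul_zero])
    ext i
    have h2 := this i i
    rw [zero_mul] at h2
    exact mul_self_eq_zero.1 h2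
  · intro x y c hx hy h
    have hV := hP x y c h
    obtain ⟨i, hi⟩ := Function.ne_iff.1 hx
    rw [Pi.zero_apply] at hi
    have h1 : c * (y i * y i) ≠ 0 := by
      rw [← hV i i]
      exact mul_ne_zero hi hi
    have hyi : y i ≠ 0 := left_ne_zero_of_mul (right_ne_zero_of_mul h1)
    refine ⟨x i / y i, div_ne_zero hi hyi, ?_⟩
    ext j
    rw [Pi.smul_apply, smul_eq_mul]
    have h2 : x i * (x j * y i - x i * y j) = 0 := by
      linear_combination y i * hV i j - y j * hV i i
    have h3 := (mul_eq_zero.1 h2).resolve_left hi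
    field_simp
    linear_combination h3
  · intro x w c hx h
    have h1 : ∀ n, dir x w (hV k n) = c * eval x (hV k n) := by
      refine inv_mul g hg (fun n => dir x w (hV k n)) (fun n => c * eval x (hV k n)) fun i => ?_
      have h1 : dir x w (∑ n, g i n • hV k n) = c * eval x (∑ n, g i n • hV k n) := h i
      rw [dir_sum] at h1
      simp only [map_sum, smul_eval, dir_smul] at h1
      rw [h1, Finset.mul_sum]
      exact Finset.sum_congr rfl fun n _ => by ring
    have e0 := h1 0
    have e1 := h1 1
    have e2 := h1 2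
    have e3 := h1 3
    have e4 := h1 4
    simp [hV, dir_mul, dir_X, dir_sub, dir_pow] at e0 e1 e2 e3 e4
    have hl : 2 * (x 0 * w 0) - c * (x 0 * x 0) = 0 := by
      apply scalar_zero (p := x) (q := fun j => w j - c * x j) (p' := w) (q' := x)
      intro i j
      fin_cases i <;> fin_cases j <;> simp
      · ring
      · linear_combination e0
      · linear_combination e1
      · linear_combination e0
      · linear_combination -e3
      · linear_combination e2
      · linear_combination e1
      · linear_combination e2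
      · linear_combination -e3 - e4
    have hW : ∀ i j, x i * w j + x j * w i = c * (x i * x j) := by
      intro i j
      fin_cases i <;> fin_cases j <;> simp
      · linear_combination hl
      · linear_combination e0
      · linear_combination e1
      · linear_combination e0
      · linear_combination hl - e3
      · linear_combination e2
      · linear_combination e1
      · linear_combination e2
      · linear_combination hl - e3 - e4
    obtain ⟨i, hi⟩ := Function.ne_iff.1 hx
    rw [Pi.zero_apply] at hi
    refine ⟨c / 2, ?_⟩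
    ext j
    rw [Pi.smul_apply, smul_eq_mul]
    have h2 : x i * (x i * (2 * w j - c * x j)) = 0 := by
      linear_combination 2 * x i * hW i j - x j * hW i i
    have h3 := (mul_eq_zero.1 h2).resolve_left hi
    have h4 := (mul_eq_zero.1 h3).resolve_left hi
    field_simp
    linear_combination h4

/-- the coefficients -/
noncomputable def AV (b : Fin 5) (j : Fin 6) : MvPolynomial (Fin 0) k := C (CV.a0 b j : k)

theorem veronese_all [CharZero k] [IsAlgClosed k] :
    AllInterpolation (n := 4) 21 {Y | IsProjectedVeronese (k := k) Y} := by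
  have : Fact (1 < 31) := ⟨by norm_num⟩
  refine all_of (c := 2) rfl _ fun m lam hlam hsum => ?_
  obtain ⟨P, hP, h⟩ := fam_general (N := 4 + 1) (k := k) (c := 2) (q := 10) (Q := 11) (D := 21)
    (R := 54) (p := 31) AV CV.ex 0 1 (by simp) CV.a0 (by
      intro b j
      unfold AV
      simp) CV.a1 (fun s => s.elim0) rfl (by norm_num) (by norm_num) (by norm_num)
    (by norm_num) (by norm_num) (by norm_num) CV.xys CV.pts CV.xs
    CV.hpts CV.hxs CV.hchk CV.hok CV.ys CV.htri m lam hlam hsum
  refine ⟨P, hP, fun v hv => ?_⟩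
  obtain ⟨g, mm, hg, hmm, hu⟩ := h v hv
  obtain ⟨h1, -⟩ := basis_change _ g hg (hV_li (k := k))
  refine ⟨zclosure (image (n := 4) fun i => ∑ n, g i n • hV k n),
    ⟨_, h1, fun j => ?_, embeds_hV g hg, rfl⟩, fun i => ?_⟩
  · refine IsHomogeneous.sum _ _ _ fun n _ => ?_
    rw [smul_eq_C_mul]
    simpa using (isHomogeneous_C (Fin 3) (g j n)).mul (hV_hom n)
  · obtain ⟨u, hu, huL⟩ := hu i
    have he : (fun n => eval ![u 0, u 1, 1] (hV k n)) = val (PhiOf AV CV.ex) mm u := by
      ext n
      rw [val_PhiOf]
      simp only [AV, eval_C]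
      fin_cases n <;> simp [hV, Fin.sum_univ_succ, CV.a0, CV.ex] <;> ring
    exact mem_image (n := 4) _ g hg ![u 0, u 1, 1] (by rw [he]; exact hu) _
      (by rw [he]; exact huL)

end Pool.Agent.W507.DelPezzo
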